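import Pool.Agent.TH216.ID.Id2
import Pool.Agent.W749.JI.Final

set_option autoImplicit false

/-! The motivic zeta function of an ideal; linearly independent exponents. -/

namespace Pool.Agent.TH216.ID

open MvPolynomial Pool.Agent.W425.MM Pool.Agent.W425.GN
open Pool.Agent.W428.MOT Pool.Agent.W749.JI
open Pool.Agent.W425.ND (spa)
open Pool.Agent.W375.MG (zetaG JetG Good good_one)
open Pool.Agent.W63.MTFin (mapMeas L_mul C_mem)
open Pool.Agent.W426.SM (gord IsRay face)
open Pool.Agent.W425.SV (Kil1)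
open Pool.Agent.W425.SM (Ind)
open Pool.Agent.TH216.MF (RelG KilU KRelJ RecJ nonD_of_ind)
open Pool.Agent.TH216.MC (pos_of_ray)
open Pool.Agent.TH216.LR (sD recJ_loc relG_of_relL)

variable {K : Type} [Field K] {n r k : ℕ}

/-- **The zeta function of an ideal from the one of `∑ y_i f_i`.** -/
theorem zetaI_eq [CharZero K] (f : Fin r → MvPolynomial (Fin n) K) :
    ∃ (a b e : MK K), zetaI f = PowerSeries.C a * (zetaG (gp f) (W0 K n r) {1} *
      (1 - PowerSeries.C (((Lu K)⁻¹ : (MK K)ˣ) : MK K) * PowerSeries.X)) * PowerSeries.C b +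
        PowerSeries.C e := by
  classical
  obtain ⟨M₀, hM₀⟩ := Pool.Agent.W417.MT.K0.main K
  set M := mapMeas M₀ (algebraMap (K0 K) (MK K)) with hM
  set Y : MK K := (((Lu K)⁻¹ : (MK K)ˣ) : MK K) with hY
  have hL : M.L * Y = 1 := L_mul hM₀
  have hLY : ∀ a : ℕ, M.L ^ a * Y ^ a = 1 := fun a => by rw [← mul_pow, hL, one_pow]
  set A : PowerSeries (MK K) := PowerSeries.mk fun N => M.χ _ (JetI f N) * Y ^ (n * N) with hA
  set G := zetaG (gp f) (W0 K n r) {1} with hG
  have hGc : ∀ N, PowerSeries.coeff N G = M.L ^ r * Y *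
      ∑ q ∈ Finset.range (N + 1), M.χ _ (JetI f q) * Y ^ (n * q) * Y ^ (N - q) := by
    intro N
    rw [← chi_jetG Pool.Agent.W417.MT.Free.main sLin M f Y hL N, hG, zetaG,
      PowerSeries.coeff_mk, zpow_neg, zpow_natCast, ← inv_pow, Units.val_pow_eq_pow_val, ← hM₀]
    rfl
  have h1 : G * (1 - PowerSeries.C Y * PowerSeries.X) = PowerSeries.C (M.L ^ r * Y) * A := by
    ext N
    rw [PowerSeries.coeff_C_mul, hA, PowerSeries.coeff_mk]
    have e1 : G * (1 - PowerSeries.C Y * PowerSeries.X) =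
        G - PowerSeries.C Y * (PowerSeries.X * G) := by ring
    rw [e1, map_sub, PowerSeries.coeff_C_mul]
    rcases N with _ | N
    · rw [PowerSeries.coeff_zero_X_mul, hGc]
      simp
    · rw [PowerSeries.coeff_succ_X_mul, hGc, hGc, Finset.sum_range_succ _ (N + 1), Nat.sub_self,
        pow_zero, mul_one]
      have e2 : ∑ q ∈ Finset.range (N + 1), M.χ _ (JetI f q) * Y ^ (n * q) * Y ^ (N + 1 - q) =
          Y * ∑ q ∈ Finset.range (N + 1), M.χ _ (JetI f q) * Y ^ (n * q) * Y ^ (N - q) := by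
        rw [Finset.mul_sum]
        refine Finset.sum_congr rfl fun q hq => ?_
        rw [Finset.mem_range] at hq
        have e3 : N + 1 - q = (N - q) + 1 := by omega
        rw [e3, pow_succ]
        ring
      rw [e2]
      ring
  have h2 : A = PowerSeries.C (M.L * Y ^ r) * (G * (1 - PowerSeries.C Y * PowerSeries.X)) := by
    rw [h1, ← mul_assoc, ← map_mul]
    have e1 : M.L * Y ^ r * (M.L ^ r * Y) = 1 := by
      linear_combination (M.L ^ r * Y ^ r) * hL + hLY r
    rw [e1, map_one, one_mul]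
  refine ⟨M.L * Y ^ r, Y ^ n, -(Y ^ n * PowerSeries.coeff 0 A), ?_⟩
  rw [← h2]
  have h3 : zetaI f = PowerSeries.C (Y ^ n) * (A - PowerSeries.C (PowerSeries.coeff 0 A)) := by
    rw [zetaI]
    have e2 : (((Lu K) ^ (-(n : ℤ)) : (MK K)ˣ) : MK K) = Y ^ n := by
      rw [zpow_neg, zpow_natCast, ← inv_pow, Units.val_pow_eq_pow_val]
    rw [e2]
    congr 1
    ext N
    rw [PowerSeries.coeff_mk, map_sub, PowerSeries.coeff_C]
    by_cases hN : N = 0
    · subst hN
      rw [if_pos rfl, if_pos rfl, sub_self]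
    · rw [if_neg hN, if_neg hN, sub_zero, hA, PowerSeries.coeff_mk, zpow_neg, zpow_natCast,
        ← inv_pow, Units.val_pow_eq_pow_val, ← hM₀]
      rfl
  rw [h3, map_neg, map_mul]
  ring

/-- membership of the zeta function of the ideal -/
theorem zetaI_mem [CharZero K] (f : Fin r → MvPolynomial (Fin n) K) (S : Set (ℤ × ℤ))
    (h : zetaG (gp f) (W0 K n r) {1} *
      (1 - PowerSeries.C (((Lu K)⁻¹ : (MK K)ˣ) : MK K) * PowerSeries.X) ∈ ratRing K S) :
    zetaI f ∈ ratRing K S := by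
  obtain ⟨a, b, e, he⟩ := zetaI_eq f
  rw [he]
  exact (ratRing K S).add_mem ((ratRing K S).mul_mem ((ratRing K S).mul_mem (C_mem _ _) h)
    (C_mem _ _)) (C_mem _ _)

/-- `∑ y_i f_i` as a sum of monomials -/
theorem gp_eq {F : Type} [Field F] (π : Fin k → Fin r) (m : Fin k → Fin n → ℕ) (c : Fin k → F) :
    gp (fam π m c) = spa (cay π m) c := by
  classical
  unfold gp fam spa
  simp only [map_sum, map_mul, rename_C, map_prod, map_pow, rename_X, Finset.mul_sum]
  have h1 : ∀ j : Fin k, (∏ i : Fin (n + r), (X i : MvPolynomial (Fin (n + r)) F) ^ cay π m j i) =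
      (∏ v : Fin n, X (Fin.castAdd r v) ^ m j v) * X (Fin.natAdd n (π j)) := by
    intro j
    rw [Fin.prod_univ_add]
    congr 1
    · refine Finset.prod_congr rfl fun v _ => ?_
      rw [RootG.cay_left]
    · rw [Finset.prod_eq_single (π j)]
      · rw [RootG.cay_right, if_pos rfl, pow_one]
      · intro i _ hi
        rw [RootG.cay_right, if_neg (Ne.symm hi), pow_zero]
      · intro h
        exact absurd (Finset.mem_univ _) h
  simp only [h1]
  rw [← Finset.sum_fiberwise_of_maps_to (s := (Finset.univ : Finset (Fin k)))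
    (t := (Finset.univ : Finset (Fin r))) (g := π) (fun _ _ => Finset.mem_univ _)]
  refine Finset.sum_congr rfl fun i _ => ?_
  refine Finset.sum_congr rfl fun j hj => ?_
  rw [(Finset.mem_filter.1 hj).2]
  ring

/-- the directions `x` -/
def Dx (n r : ℕ) : Finset (Fin (n + r)) := Finset.univ.map (Fin.castAddEmb r)

lemma sD_cay (π : Fin k → Fin r) (m : Fin k → Fin n → ℕ) (j : Fin k) :
    sD (cay π m) (Dx n r) j + 1 = sD (cay π m) Finset.univ j + 0 := by
  classical
  unfold sD Dx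
  rw [Finset.sum_map, Fin.sum_univ_add]
  have h1 : ∑ i : Fin r, cay π m j (Fin.natAdd n i) = 1 := by
    simp only [RootG.cay_right]
    rw [Finset.sum_ite_eq]
    simp
  rw [h1]
  rfl

lemma W0_Dx (z : Pt K (Fin (n + r))) (hz : z ∈ W0 K n r) : ∀ i ∈ Dx n r, z i = 0 := by
  intro i hi
  obtain ⟨v, -, rfl⟩ := Finset.mem_map.1 hi
  exact hz v

lemma constr_W0 : Constr (W0 K n r) := Constr.all fun v => Constr.eqz (IsPF.coord _)

/-- the relation for the ideal -/
theorem rel_ideal (π : Fin k → Fin r) (m : Fin k → Fin n → ℕ) (hJ : JInd π m) (c : Fin k → ℂ)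
    (hc : ∀ j, c j ≠ 0) (b : Polynomial ℂ) (hb : IsLocalBIdeal (fam π m c) b) :
    RelG (cay π m) (Kil1 (cay π m))
      (KilU (cay π m) fun j => -((sD (cay π m) (Dx n r) j + 1 : ℕ) : ℤ)) b := by
  have hU := sBtoG (fam π m c) b hb
  have h1 : gpol (fam π m c) = Pool.Agent.W425.SM.sparse (cay π m) c := gp_eq π m c
  rw [h1] at hU
  have h2 := Pool.Agent.W596.SL.taskL2 (cay π m) c b (RootG.affInd_cay π m hJ) hc hU
  have h3 := relG_of_relL (cay π m) b h2
  have h4 : (fun j => -((sD (cay π m) (Dx n r) j + 1 : ℕ) : ℤ)) =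
      fun j => -((sD (cay π m) Finset.univ j + 0 : ℕ) : ℤ) := by
    funext j
    rw [sD_cay]
  rw [h4]
  exact h3

/-- **Linearly independent exponents, at the origin.** -/
theorem ideal_loc {k0 : Type} [Field k0] [Algebra k0 ℂ] (hk : 0 < k) (π : Fin k → Fin r)
    (m : Fin k → Fin n → ℕ) (hJ : JInd π m) (c : Fin k → k0) (hc : ∀ j, c j ≠ 0) :
    ∃ S : Finset (ℤ × ℤ),
      (∀ p ∈ S, p.1 < 0 ∧ 0 < p.2 ∧ ∀ b : Polynomial ℂ,
        IsLocalBIdeal (fam π m (fun j => algebraMap k0 ℂ (c j))) b →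
          b.eval ((p.1 : ℂ) / p.2) = 0) ∧
      ∀ (K : Type) [Field K] [Algebra k0 K],
        zetaI (fam π m (fun j => algebraMap k0 K (c j))) ∈ ratRing K S := by
  classical
  have hkc : CharZero k0 := RingHom.charZero (algebraMap k0 ℂ)
  have hcC : ∀ j, algebraMap k0 ℂ (c j) ≠ 0 := fun j => (map_ne_zero _).2 (hc j)
  have hv : Ind (cay π m) := RootG.affInd_cay π m hJ
  have hnd : NonD (cay π m) (fun j => algebraMap k0 ℂ (c j)) :=
    nonD_of_ind hk (cay π m) hv _ hcC
  obtain ⟨S, hS, hz1⟩ := fin_W (cay π m) hk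
    (fun σ => ∃ b, IsLocalBIdeal (fam π m (fun j => algebraMap k0 ℂ (c j))) b ∧
      b.eval (-(σ : ℂ)) ≠ 0) (Dx n r) (by
      rintro J hJD q hq e he T0 hT0 σ ⟨b, hb, hne⟩ hlog
      refine recJ_loc hk q hq (cay π m) b J (Dx n r) hJD 1
        (rel_ideal π m hJ _ hcC b hb) e he T0 hT0 ?_
      have h4 : ((-Real.log ‖T0‖ / Real.log q : ℝ) : ℂ) = -(σ : ℂ) := by
        rw [neg_div, hlog]
        push_cast
        rfl
      rw [h4]
      exact hne)
  have hsp : ∀ {K : Type} [Field K] (c' : Fin k → K), spa (cay π m) c' = sp 0 (cay π m) c' 1 := by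
    intro K _ c'
    unfold sp spa
    simp
  refine ⟨S, fun p hp => ?_, ?_⟩
  · obtain ⟨a, ha, hg, hn, rfl⟩ := hS p hp
    refine ⟨pos_of_ray ha, Int.natCast_pos.2 hg, fun b hb => ?_⟩
    by_contra hne
    apply hn
    refine ⟨b, hb, ?_⟩
    have e : -((((∑ i, a i : ℕ) : ℚ) / gord (cay π m) a : ℚ) : ℂ) =
        ((-((∑ i, a i : ℕ) : ℤ) : ℤ) : ℂ) / ((gord (cay π m) a : ℤ) : ℂ) := by
      push_cast
      ring
    rw [e]
    exact hne
  · intro K _ _
    have hK : CharZero K := charZero_of_injective_algebraMap (algebraMap k0 K).injective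
    refine zetaI_mem _ _ ?_
    rw [gp_eq, hsp]
    refine hz1 K _ (nonG_of_nonD _ _ ?_) (fun j => (map_ne_zero _).2 (hc j)) _ _ constr_W0
      good_one (fun z hz => W0_Dx z hz)
    have h4 := nonD_ext (k := k0) (L := AlgebraicClosure K) _ _ hnd
    have h5 : (fun j => algebraMap K (AlgebraicClosure K) (algebraMap k0 K (c j))) =
        fun j => algebraMap k0 (AlgebraicClosure K) (c j) := by
      funext j
      rw [← IsScalarTower.algebraMap_apply]
    rw [h5]
    exact h4

end Pool.Agent.TH216.ID
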