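import Pool.Agent.TH216.ID.Gn2
import Pool.Agent.TH216.ID.Id3
import Pool.Agent.TH216.MF.HDM
import Pool.Agent.TH216.HDI

set_option autoImplicit false

/-! Ideals with generic coefficients, at the origin. -/

namespace Pool.Agent.TH216.ID

open MvPolynomial Pool.Agent.W425.MM Pool.Agent.W425.GN
open Pool.Agent.W428.MOT Pool.Agent.W749.JI
open Pool.Agent.W425.ND (spa)
open Pool.Agent.W375.MG (zetaG Good good_one)
open Pool.Agent.W426.SM (gord)
open Pool.Agent.W425.SV (NP)
open Pool.Agent.W425.BF (BD)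
open Pool.Agent.TH216.MF (SimH)
open Pool.Agent.TH216.HD (IsRay ordA OnFace lev Simp B1Dir NonB1 simH_iff)
open Pool.Agent.TH216.HDI

variable {ℓ r n : ℕ}

/-- the directions `y` -/
def Dy (n r : ℕ) : Finset (Fin (n + r)) := Finset.univ.map (Fin.natAddEmb n)

lemma mem_Dy (i : Fin (n + r)) : i ∈ Dy n r ↔ ∃ x : Fin r, Fin.natAdd n x = i := by
  unfold Dy
  simp

lemma cay_inj (π : Fin ℓ → Fin r) (m : Fin ℓ → Fin n → ℕ)
    (hinj : ∀ j j', π j = π j' → m j = m j' → j = j') : Function.Injective (cay π m) := by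
  intro j j' h
  have h1 : π j = π j' := by
    have h2 := congrFun h (Fin.natAdd n (π j))
    rw [RootG.cay_right, RootG.cay_right, if_pos rfl] at h2
    by_contra h3
    rw [if_neg (Ne.symm h3)] at h2
    exact one_ne_zero h2
  refine hinj j j' h1 (funext fun x => ?_)
  have h2 := congrFun h (Fin.castAdd r x)
  rw [RootG.cay_left, RootG.cay_left] at h2
  exact h2

lemma cay_ne (π : Fin ℓ → Fin r) (m : Fin ℓ → Fin n → ℕ) (j : Fin ℓ) : cay π m j ≠ 0 := by
  intro h
  have h2 := congrFun h (Fin.natAdd n (π j))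
  rw [RootG.cay_right, if_pos rfl] at h2
  exact one_ne_zero h2

lemma yok_cay (π : Fin ℓ → Fin r) (m : Fin ℓ → Fin n → ℕ) : YOK (cay π m) (Dy n r) := by
  constructor
  · intro i hi j
    obtain ⟨x, rfl⟩ := (mem_Dy i).1 hi
    rw [RootG.cay_right]
    split_ifs <;> omega
  · intro i hi i' hi' j h1 h2
    obtain ⟨x, rfl⟩ := (mem_Dy i).1 hi
    obtain ⟨x', rfl⟩ := (mem_Dy i').1 hi'
    rw [RootG.cay_right] at h1 h2
    have h3 : π j = x := by
      by_contra h
      exact h1 (if_neg h)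
    have h4 : π j = x' := by
      by_contra h
      exact h2 (if_neg h)
    rw [← h3, h4]

variable {F : Type} [Field F]

/-- the exponents of `∑ y_i h_i` -/
lemma ysum_supp (h : Fin r → MvPolynomial (Fin n) F) (w : Fin (n + r) →₀ ℕ)
    (hw : w ∈ (ysum h).support) : ∃ i, ∃ u ∈ (h i).support,
      (∀ x, w (Fin.castAdd r x) = u x) ∧ ∀ x : Fin r, w (Fin.natAdd n x) = if i = x then 1 else 0 := by
  classical
  unfold ysum at hw
  obtain ⟨i, -, hi⟩ := Finset.mem_biUnion.1 (MvPolynomial.support_sum hw)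
  rw [mul_comm, MvPolynomial.support_mul_X] at hi
  obtain ⟨w', hw', rfl⟩ := Finset.mem_map.1 hi
  rw [MvPolynomial.support_rename_of_injective (Fin.castAdd_injective n r)] at hw'
  obtain ⟨u, hu, rfl⟩ := Finset.mem_image.1 hw'
  refine ⟨i, u, hu, fun x => ?_, fun x => ?_⟩
  · have h1 : (Fin.natAdd n i : Fin (n + r)) ≠ Fin.castAdd r x := by
      intro h2
      have h3 := congrArg Fin.val h2
      simp only [Fin.val_natAdd, Fin.val_castAdd] at h3
      have := x.isLt
      omega
    show (Finsupp.mapDomain (Fin.castAdd r) u + Finsupp.single (Fin.natAdd n i) 1 :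
      Fin (n + r) →₀ ℕ) (Fin.castAdd r x) = _
    rw [Finsupp.add_apply, Finsupp.mapDomain_apply (Fin.castAdd_injective n r),
      Finsupp.single_apply, if_neg h1, add_zero]
  · show (Finsupp.mapDomain (Fin.castAdd r) u + Finsupp.single (Fin.natAdd n i) 1 :
      Fin (n + r) →₀ ℕ) (Fin.natAdd n x) = _
    rw [Finsupp.add_apply, Finsupp.mapDomain_of_notMem_range, zero_add, Finsupp.single_apply]
    · by_cases h1 : i = x
      · rw [if_pos h1, h1, if_pos rfl]
      · rw [if_neg h1, if_neg]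
        intro h2
        apply h1
        have h3 := congrArg Fin.val h2
        simp only [Fin.val_natAdd] at h3
        exact Fin.ext (by omega)
    · rintro ⟨y, hy⟩
      have h3 := congrArg Fin.val hy
      simp only [Fin.val_natAdd, Fin.val_castAdd] at h3
      have := y.isLt
      omega

lemma ysum_np (π : Fin ℓ → Fin r) (m : Fin ℓ → Fin n → ℕ) (h : Fin r → MvPolynomial (Fin n) F)
    (hh : InPolyI π m h) : ∀ w ∈ (ysum h).support, NP (cay π m) w := by
  intro w hw
  obtain ⟨i, u, hu, h1, h2⟩ := ysum_supp h w hw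
  obtain ⟨l, hl0, hl1, hl2, hl3⟩ := hh i u hu
  refine ⟨l, hl0, hl2, fun x => ?_⟩
  refine Fin.addCases (fun x => ?_) (fun x => ?_) x
  · rw [h1]
    simp only [RootG.cay_left]
    exact hl3 x
  · rw [h2]
    simp only [RootG.cay_right]
    by_cases h3 : i = x
    · rw [if_pos h3, Nat.cast_one, ← hl2]
      refine Finset.sum_le_sum fun j _ => ?_
      split_ifs
      · simp
      · simpa using hl0 j
    · rw [if_neg h3, Nat.cast_zero]
      refine le_of_eq (Finset.sum_eq_zero fun j _ => ?_)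
      by_cases h4 : π j = x
      · rw [hl1 j (fun h5 => h3 (h5.symm.trans h4)), zero_mul]
      · rw [if_neg h4, Nat.cast_zero, mul_zero]

lemma ysum_yok (h : Fin r → MvPolynomial (Fin n) F) : ∀ w ∈ (ysum h).support,
    (∀ i ∈ Dy n r, w i ≤ 1) ∧ ∀ i ∈ Dy n r, ∀ i' ∈ Dy n r, w i ≠ 0 → w i' ≠ 0 → i = i' := by
  intro w hw
  obtain ⟨i0, u, hu, h1, h2⟩ := ysum_supp h w hw
  constructor
  · intro i hi
    obtain ⟨x, rfl⟩ := (mem_Dy i).1 hi
    rw [h2]
    split_ifs <;> omega
  · intro i hi i' hi' h3 h4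
    obtain ⟨x, rfl⟩ := (mem_Dy i).1 hi
    obtain ⟨x', rfl⟩ := (mem_Dy i').1 hi'
    rw [h2] at h3 h4
    have h5 : i0 = x := by
      by_contra h
      exact h3 (if_neg h)
    have h6 : i0 = x' := by
      by_contra h
      exact h4 (if_neg h)
    rw [← h5, h6]

/-- `∑ y_i f_i` for the generators -/
lemma gp_gens {k : Type} [Field k] [Algebra F k] (π : Fin ℓ → Fin r) (m : Fin ℓ → Fin n → ℕ)
    (c : Fin ℓ → k) (h : Fin r → MvPolynomial (Fin n) F) :
    gp (gens π m c h) = spa (cay π m) c + MvPolynomial.map (algebraMap F k) (ysum h) := by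
  rw [← gp_eq]
  unfold gp gens ysum fam
  simp only [map_add, mul_add, Finset.sum_add_distrib]
  congr 1
  rw [map_sum]
  refine Finset.sum_congr rfl fun i _ => ?_
  rw [map_mul, MvPolynomial.map_X, MvPolynomial.map_rename]

lemma yapex_iff (v : Fin ℓ → Fin (n + r) → ℕ) (h : MvPolynomial (Fin (n + r)) F)
    (a : Fin (n + r) → ℕ) : YApex v h a ↔ ∃ i ∈ Dy n r, BD v h i a := by
  constructor
  · rintro ⟨i, hi⟩
    exact ⟨_, (mem_Dy _).2 ⟨i, rfl⟩, hi⟩
  · rintro ⟨i, hi, h1⟩
    obtain ⟨x, rfl⟩ := (mem_Dy i).1 hi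
    exact ⟨x, h1⟩

lemma locI_iff (v : Fin ℓ → Fin (n + r) → ℕ) (h : MvPolynomial (Fin (n + r)) F) (σ : ℚ) :
    LocI v h σ ↔ LocY v (Dy n r) h σ := by
  refine forall_congr' fun j1 => or_congr (exists_congr fun i => forall_congr' fun a =>
    forall_congr' fun _ => forall_congr' fun _ => forall_congr' fun _ => forall_congr' fun _ => ?_)
    (forall_congr' fun a => forall_congr' fun _ => forall_congr' fun _ => forall_congr' fun _ =>
      forall_congr' fun _ => ?_)
  · exact or_congr (simH_iff v h a).symm Iff.rfl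
  · exact or_congr (simH_iff v h a).symm (yapex_iff v h a)

lemma hypY_of (v : Fin ℓ → Fin (n + r) → ℕ) (h : MvPolynomial (Fin (n + r)) F) (hL : HypI v h) :
    HypY v (Dy n r) h := by
  intro a ha hg hn
  rcases hL a ha hg with h1 | h1 | h1
  · obtain ⟨i, hi, h2⟩ := (yapex_iff v h a).1 h1
    exact absurd h2 (hn i hi)
  · exact Or.inl h1
  · exact Or.inr ((locI_iff v h _).1 h1)

/-- **Ideals with generic coefficients, at the origin.** -/
theorem ideal_gen [Algebra F ℂ] (hℓ : 0 < ℓ) (π : Fin ℓ → Fin r)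
    (m : Fin ℓ → Fin n → ℕ) (hinj : ∀ j j', π j = π j' → m j = m j' → j = j')
    (h : Fin r → MvPolynomial (Fin n) F) (hh : InPolyI π m h) (hL : HypI (cay π m) (ysum h)) :
    ∃ g : MvPolynomial (Fin ℓ) F, g ≠ 0 ∧ ∀ (k : Type) [Field k] [Algebra F k] [Algebra k ℂ]
      [IsScalarTower F k ℂ] (c : Fin ℓ → k), aeval c g ≠ 0 →
      ∃ S : Finset (ℤ × ℤ),
        (∀ p ∈ S, p.1 < 0 ∧ 0 < p.2 ∧ ∀ b : Polynomial ℂ,
          IsLocalBIdeal (gens π m (fun j => algebraMap k ℂ (c j)) h) b →
            b.eval ((p.1 : ℂ) / p.2) = 0) ∧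
        ∀ (K : Type) [Field K] [Algebra k K],
          zetaI (fun i => MvPolynomial.map (algebraMap k K) (gens π m c h i)) ∈ ratRing K S := by
  obtain ⟨g, hg, hC⟩ := genY hℓ (Dx n r) (cay π m) (Dy n r) (cay_inj π m hinj) (cay_ne π m)
    (ysum h) (ysum_np π m h hh) (yok_cay π m) (ysum_yok h) (hypY_of _ _ hL)
  refine ⟨g, hg, fun k _ _ _ _ c hc => ?_⟩
  have hkc : CharZero k := RingHom.charZero (algebraMap k ℂ)
  obtain ⟨S, hS, hz⟩ := hC k c (fun h0 => hc (by
    have h1 : algebraMap k ℂ (aeval c g) = 0 := by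
      rw [← h0, ← aeval_algebraMap_apply]
      rfl
    exact (map_eq_zero _).1 h1))
  refine ⟨S, fun p hp => ?_, fun K _ _ => ?_⟩
  · obtain ⟨h1, h2, h3⟩ := hS p hp
    refine ⟨h1, h2, fun b hb => h3 b ?_⟩
    have h4 := feqL_ideal _ b hb
    have h5 : gpol (gens π m (fun j => algebraMap k ℂ (c j)) h) =
        spa (cay π m) (fun j => algebraMap k ℂ (c j)) +
          MvPolynomial.map (algebraMap F ℂ) (ysum h) := gp_gens π m _ h
    rw [h5] at h4
    exact h4
  · have hK : CharZero K := charZero_of_injective_algebraMap (algebraMap k K).injective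
    refine zetaI_mem _ _ ?_
    have h5 : gp (fun i => MvPolynomial.map (algebraMap k K) (gens π m c h i)) =
        spa (cay π m) (fun j => algebraMap k K (c j)) +
          MvPolynomial.map ((algebraMap k K).comp (algebraMap F k)) (ysum h) := by
      have h6 : gp (fun i => MvPolynomial.map (algebraMap k K) (gens π m c h i)) =
          MvPolynomial.map (algebraMap k K) (gp (gens π m c h)) := by
        unfold gp
        rw [map_sum]
        refine Finset.sum_congr rfl fun i _ => ?_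
        rw [map_mul, MvPolynomial.map_X, MvPolynomial.map_rename]
      rw [h6, gp_gens, map_add, MvPolynomial.map_map]
      congr 1
      unfold spa
      simp
    rw [h5]
    exact hz K _ _ constr_W0 good_one (fun z hz => W0_Dx z hz)

end Pool.Agent.TH216.ID
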