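import Pool.Agent.TH216.ID.Gn3
import Pool.Agent.TH216.ND.Nd2
import Pool.Agent.TH216.HDNI
import Pool.Agent.W423.NI.Final

set_option autoImplicit false

/-! Nondegenerate ideals, at the origin, weak form. -/

namespace Pool.Agent.TH216.ID

open MvPolynomial Pool.Agent.W425.MM
open Pool.Agent.W428.MOT Pool.Agent.W749.JI
open Pool.Agent.W425.ND (spa Nondeg prodb prodb_eval parts)
open Pool.Agent.W425.SG (UnitEq)
open Pool.Agent.W375.MG (zetaG Good good_one)
open Pool.Agent.W426.SM (gord face)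
open Pool.Agent.W803.SM (gord_le exists_gord)
open Pool.Agent.W425.SV (NP Kil1)
open Pool.Agent.W425.BF (B1)
open Pool.Agent.TH216.MF (RelG KilU KRelJ RecJ krelJ_phi aJ_phi InC inC_self SimR)
open Pool.Agent.TH216.MC (pos_of_ray)
open Pool.Agent.TH216.ND
open Pool.Agent.TH216.HD
open Pool.Agent.TH216.HDI
open Pool.Agent.W423.NI (NondegI)

variable {r n : ℕ}

section
variable {N k : ℕ}

lemma isRay_iff (v : Fin k → Fin N → ℕ) (a : Fin N → ℕ) :
    Pool.Agent.W426.SM.IsRay v a ↔ IsRay v a := Iff.rfl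

/-- restriction of the directions -/
lemma yok_vK (v : Fin k → Fin N → ℕ) (Y : Finset (Fin N)) (hY : YOK v Y) (V : Finset (Fin k)) :
    YOK (vK v V) Y :=
  ⟨fun i hi _ => hY.1 i hi _, fun i hi _ hi' _ => hY.2 i hi _ hi' _⟩

lemma ray_vK (hr : 0 < k) (v : Fin k → Fin N → ℕ) (V : Finset (Fin k)) (hV : Spans v V)
    (a : Fin N → ℕ) (ha : Pool.Agent.W426.SM.IsRay (vK v V) a) : IsRay v a := by
  have hg := fun a => (gord_vK hr v V hV a).2
  refine ⟨ha.1, fun u hu hf => ha.2 u hu fun i i' hi hi' => ?_⟩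
  have h1 : face v a (iK v V i) := by
    unfold face at hi ⊢
    rw [hg] at hi
    exact hi
  have h2 : face v a (iK v V i') := by
    unfold face at hi' ⊢
    rw [hg] at hi'
    exact hi'
  exact hf _ _ h1 h2

lemma face_vK (hr : 0 < k) (v : Fin k → Fin N → ℕ) (V : Finset (Fin k)) (hV : Spans v V)
    (a : Fin N → ℕ) (i : Fin (Kp v V).card) : face (vK v V) a i ↔ OnFace v a (iK v V i) := by
  have hg := fun a => (gord_vK hr v V hV a).2
  unfold face
  rw [hg]
  rfl

lemma simR_vK (hr : 0 < k) (v : Fin k → Fin N → ℕ) (V : Finset (Fin k)) (hV : Spans v V)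
    (a : Fin N → ℕ) (h : SimpV v V a) : SimR (vK v V) a := by
  classical
  obtain ⟨h1, h2⟩ := h
  have hface := face_vK hr v V hV
  intro w hw1 hw2
  set W : Fin k → ℚ := fun j => if hj : ∃ x, iK v V x = j then w hj.choose else 0 with hW
  have hWi : ∀ x, W (iK v V x) = w x := by
    intro x
    have h5 : ∃ x', iK v V x' = iK v V x := ⟨x, rfl⟩
    rw [hW]
    simp only
    rw [dif_pos h5, iK_inj v V h5.choose_spec]
  have h4 := h1 W (fun j hj => by
    by_cases hx : ∃ x, iK v V x = j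
    · obtain ⟨x, rfl⟩ := hx
      rw [hWi]
      by_contra hne
      have hfx : face (vK v V) a x := by
        by_contra h6
        exact hne (hw1 x h6)
      have h7 := (hface a x).1 hfx
      refine hj ⟨?_, h7⟩
      rcases (mem_Kp v V _).1 (iK_mem v V x) with h8 | h8
      · exact h8
      · exact absurd (h2 _ h7) h8
    · rw [hW]
      simp only
      rw [dif_neg hx]) (fun i hi => by
      have h5 := hw2 i hi
      have h6 : ∑ j, W j * (v j i : ℚ) = ∑ x, w x * (vK v V x i : ℚ) := by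
        have h7 : ∑ x, w x * (vK v V x i : ℚ) =
            ∑ j ∈ Finset.univ.image (iK v V), W j * (v j i : ℚ) := by
          rw [Finset.sum_image (fun i _ i' _ h => iK_inj v V h)]
          refine Finset.sum_congr rfl fun x _ => ?_
          rw [hWi]
          rfl
        rw [h7]
        symm
        refine Finset.sum_subset (Finset.subset_univ _) fun j _ hj => ?_
        have h8 : ¬ ∃ x, iK v V x = j := by
          rintro ⟨x, rfl⟩
          exact hj (Finset.mem_image_of_mem _ (Finset.mem_univ _))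
        rw [hW]
        simp only
        rw [dif_neg h8, zero_mul]
      rw [h6]
      exact h5)
  intro x
  rw [← hWi]
  exact h4 _

lemma b1_vK (hr : 0 < k) (v : Fin k → Fin N → ℕ) (V : Finset (Fin k)) (hV : Spans v V)
    (a : Fin N → ℕ) (i : Fin N) (h : B1V v i a) : B1 (vK v V) i a := by
  have hface := face_vK hr v V hV
  obtain ⟨hai, j0, hf0, hv1, hu⟩ := h
  have hj0 : j0 ∈ Kp v V := by
    rw [mem_Kp]
    by_contra hcon
    push Not at hcon
    obtain ⟨hn, l, h1, h2, h3, h4⟩ := hcon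
    have h5 : ∑ k, l k * (v k i : ℝ) = 0 := by
      refine Finset.sum_eq_zero fun k _ => ?_
      by_cases hk : l k = 0
      · rw [hk, zero_mul]
      · have h6 := face_of_low v V j0 l h1 h3 (fun i => (h4 i).le) a hf0 k
          (lt_of_le_of_ne (h1 k) (Ne.symm hk))
        have h7 : k ≠ j0 := by
          rintro rfl
          exact hk (h2 k hn)
        rw [hu k h6 h7]
        simp
    rw [h4 i, hv1] at h5
    norm_num at h5
  obtain ⟨x0, hx0⟩ := iK_surj v V hj0
  refine ⟨hai, x0, ?_, ?_, fun x hx hxn => ?_⟩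
  · rw [hface, hx0]
    exact hf0
  · unfold vK
    rw [hx0, hv1]
  · unfold vK
    refine hu _ ((hface a x).1 hx) fun h5 => hxn (iK_inj v V ?_)
    rw [h5, hx0]

lemma vert_vK (hr : 0 < k) (v : Fin k → Fin N → ℕ) (V : Finset (Fin k)) (hV : Spans v V)
    (x1 : Fin (Kp v V).card) : ∃ j1 ∈ V, ∀ a : Fin N → ℕ, face (vK v V) a x1 → OnFace v a j1 := by
  have hface := face_vK hr v V hV
  obtain ⟨l, h1, h2, h3, h4⟩ := hV (iK v V x1)
  obtain ⟨j, hj⟩ : ∃ k, 0 < l k := by
    by_contra hcon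
    push Not at hcon
    have : ∑ j, l j = 0 := Finset.sum_eq_zero fun j _ => le_antisymm (hcon j) (h1 j)
    rw [this] at h3
    exact zero_ne_one h3
  have hjV : j ∈ V := by
    by_contra h5
    exact hj.ne' (h2 j h5)
  exact ⟨j, hjV, fun a ha => face_of_low v V _ l h1 h3 h4 a ((hface a x1).1 ha) j hj⟩

end

/-- from the condition on the facets to the criterion -/
theorem hypSY_of_locVI {k : ℕ} (hr : 0 < k) (v : Fin k → Fin (n + r) → ℕ) (V : Finset (Fin k))
    (hV : Spans v V) (σ : ℚ) (hL : LocVI v V σ) : HypSY (vK v V) (Dy n r) (σ : ℝ) := by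
  classical
  have hcard := (gord_vK hr v V hV 0).1
  have hg := fun a => (gord_vK hr v V hV a).2
  refine hypSY_of hcard _ _ _ fun x1 => ?_
  obtain ⟨j1, hj1, hf1⟩ := vert_vK hr v V hV x1
  have hcast : ∀ a : Fin (n + r) → ℕ, Pool.Agent.W426.SM.IsRay (vK v V) a →
      0 < gord (vK v V) a → face (vK v V) a x1 →
      ((∑ i, a i : ℕ) : ℝ) / gord (vK v V) a = (σ : ℝ) →
      IsRay v a ∧ 0 < ordA v a ∧ OnFace v a j1 ∧ lev v a = σ := by
    intro a ha hga hf hs
    rw [hg] at hga hs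
    refine ⟨ray_vK hr v V hV a ha, hga, hf1 a hf, ?_⟩
    unfold lev
    apply Rat.cast_injective (α := ℝ)
    push_cast
    push_cast at hs
    exact hs
  rcases hL j1 hj1 with ⟨i, hi⟩ | hi
  · refine Or.inl ⟨i, fun a ha hga hf hs => ?_⟩
    obtain ⟨h1, h2, h3, h4⟩ := hcast a ha hga hf hs
    exact (hi a h1 h2 h3 h4).imp (simR_vK hr v V hV a) (b1_vK hr v V hV a i)
  · refine Or.inr fun a ha hga hf hs => ?_
    obtain ⟨h1, h2, h3, h4⟩ := hcast a ha hga hf hs
    refine (hi a h1 h2 h3 h4).imp (simR_vK hr v V hV a) ?_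
    rintro ⟨i, h5⟩
    exact ⟨_, (mem_Dy _).2 ⟨i, rfl⟩, b1_vK hr v V hV a _ h5⟩

/-- the recurrences at the bad levels -/
theorem hb_ndY {k : ℕ} (hr : 0 < k) (v : Fin k → Fin (n + r) → ℕ) (hv : Function.Injective v)
    (hY : YOK v (Dy n r)) (V : Finset (Fin k)) (hV : Spans v V) (P : ℚ → Prop)
    (hP : ∀ α, ¬ P α → ∃ (θ : Fin (Kp v V).card → ℤ) (p : Polynomial ℂ),
      RelG (vK v V) (Kil1 (vK v V)) (KilU (vK v V) θ) p ∧ p.eval (α : ℂ) ≠ 0)
    (J : Finset (Fin (n + r))) (q : ℕ) (hq : 2 ≤ q) (e : Finset (Fin k) → ℂ)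
    (he : KRelJ q v J e) (T0 : ℂ) (hT0 : T0 ≠ 0) (σ : ℚ) (hσ : LocVI v V σ ∧ ¬ P (-σ))
    (hlog : Real.log ‖T0‖ / Real.log q = (σ : ℝ)) : RecJ q v e J T0 := by
  classical
  have hcard := (gord_vK hr v V hV 0).1
  obtain ⟨hL, hPσ⟩ := hσ
  obtain ⟨θ, p, hrel, hp⟩ := hP _ hPσ
  have hma : ∀ j', ∃ j, v j = vK v V j' := fun j' => ⟨iK v V j', rfl⟩
  have hmb : ∀ j, InC (vK v V) Finset.univ (v j) := inC_all v V
  have he' := krelJ_phi v (vK v V) hv hma q J e he
  have h1 : ((-Real.log ‖T0‖ / Real.log q : ℝ) : ℂ) = ((-σ : ℚ) : ℂ) := by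
    rw [neg_div, hlog]
    push_cast
    rfl
  obtain ⟨Q, hQ, hrec⟩ := recJ_genY q hq (vK v V) (Dy n r) (yok_vK v _ hY V) p θ hrel J _ he' T0
    hT0 (by rw [h1]; exact hp) (by rw [hlog]; exact hypSY_of_locVI hr v V hV σ hL)
  refine ⟨Q, hQ, ?_⟩
  filter_upwards [hrec] with t ht
  rw [← ht]
  refine Finset.sum_congr rfl fun m _ => ?_
  rw [aJ_phi v (vK v V) hr hcard hma hmb]

/-- the condition on `α`: an integer, or a root modulo integers -/
def PWI {N : ℕ} (f : MvPolynomial (Fin N) ℂ) (α : ℚ) : Prop :=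
  (∃ z : ℤ, α = z) ∨ ∀ b : Polynomial ℂ, UnitEq True f ((Polynomial.X + 1) * b) →
    ∃ i : ℤ, b.eval ((α : ℂ) - i) = 0

theorem rel_ndI {N k : ℕ} (hr : 0 < k) (v : Fin k → Fin N → ℕ) (hv : Function.Injective v)
    (a : Fin k → ℂ) (hnd : Nondeg v a) (V : Finset (Fin k)) (α : ℚ)
    (hα : ¬ PWI (spa v a) α) :
    ∃ (θ : Fin (Kp v V).card → ℤ) (p : Polynomial ℂ),
      RelG (vK v V) (Kil1 (vK v V)) (KilU (vK v V) θ) p ∧ p.eval (α : ℂ) ≠ 0 := by
  have hne : NeZero k := ⟨by omega⟩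
  unfold PWI at hα
  push Not at hα
  obtain ⟨hint, b, hb, hroot⟩ := hα
  obtain ⟨K, hK⟩ := relAll parts True v a hv hnd _ hb
  obtain ⟨θ, hθ⟩ := relG_restr v (vK v V) (iK v V) (iK_inj v V) (fun i => rfl)
    (fun j hj => out_hull v V j hj) True (prodb _ K) hK
  refine ⟨θ, prodb _ K, hθ, ?_⟩
  rw [prodb_eval, Finset.prod_ne_zero_iff]
  intro i _
  rw [Polynomial.eval_mul]
  refine mul_ne_zero ?_ (by exact_mod_cast hroot (i : ℤ))
  intro h0
  apply hint ((i : ℤ) - 1)
  have h1 : ((α - ((i : ℤ) - 1 : ℤ) : ℚ) : ℂ) = ((0 : ℚ) : ℂ) := by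
    simp only [Polynomial.eval_add, Polynomial.eval_X, Polynomial.eval_one] at h0
    push_cast
    linear_combination h0
  have h2 : α - ((i : ℤ) - 1 : ℤ) = 0 := by exact_mod_cast h1
  linarith

/-- all the rays -/
lemma HypVI_all {k : ℕ} {v : Fin k → Fin (n + r) → ℕ} {V : Finset (Fin k)} (hL : HypVI v V)
    (a : Fin (n + r) → ℕ) (_ha : IsRay v a) (_hg : 0 < ordA v a) :
    (∃ z : ℤ, lev v a = z) ∨ (∃ a' : Fin (n + r) → ℕ, 0 < ordA v a' ∧ NonB1 v True a' ∧ ∃ z : ℤ,
      lev v a = lev v a' + z) ∨ LocVI v V (lev v a) := by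
  by_cases hex : ∃ a' : Fin (n + r) → ℕ, IsRay v a' ∧ 0 < ordA v a' ∧ lev v a' = lev v a ∧
      ¬ YApexV v a'
  · obtain ⟨a', h1, h2, h3, h4⟩ := hex
    rcases hL a' h1 h2 with h5 | ⟨t, ht⟩ | h5 | h5
    · exact absurd h5 h4
    · left
      refine ⟨t, ?_⟩
      rw [← h3]
      unfold lev
      rw [ht]
      have : ((ordA v a' : ℕ) : ℚ) ≠ 0 := by exact_mod_cast h2.ne'
      push_cast
      field_simp
    · right
      left
      rw [h3] at h5
      exact h5
    · right
      right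
      rw [h3] at h5
      exact h5
  · push Not at hex
    refine Or.inr (Or.inr fun j1 _ => Or.inr fun a' h1 h2 _ h4 => Or.inr ?_)
    exact hex a' h1 h2 h4

/-- **Nondegenerate ideals, at the origin.** -/
theorem nd_ideal {ℓ : ℕ} {k : Type} [Field k] [Algebra k ℂ] (hℓ : 0 < ℓ) (π : Fin ℓ → Fin r)
    (m : Fin ℓ → Fin n → ℕ) (hinj : ∀ j j', π j = π j' → m j = m j' → j = j')
    (c : Fin ℓ → k) (hc : ∀ j, c j ≠ 0)
    (hnd : NondegI π m (fun j => algebraMap k ℂ (c j))) (V : Finset (Fin ℓ))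
    (hV : Spans (cay π m) V) (hL : HypVI (cay π m) V) :
    ∃ S : Finset (ℤ × ℤ),
      (∀ p ∈ S, p.1 < 0 ∧ 0 < p.2 ∧ (p.2 ∣ p.1 ∨ ∀ b : Polynomial ℂ,
        IsLocalBIdeal (fam π m (fun j => algebraMap k ℂ (c j))) b →
          ∃ i : ℤ, b.eval ((p.1 : ℂ) / p.2 - i) = 0)) ∧
      ∀ (K : Type) [Field K] [Algebra k K],
        zetaI (fam π m (fun j => algebraMap k K (c j))) ∈ ratRing K S := by
  classical
  have hne : NeZero ℓ := ⟨by omega⟩
  have hkc : CharZero k := RingHom.charZero (algebraMap k ℂ)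
  have hnd' : Nondeg (cay π m) (fun j => algebraMap k ℂ (c j)) :=
    Pool.Agent.W150.NI.cay π m _ hℓ hnd
  have hv := cay_inj π m hinj
  set f : MvPolynomial (Fin (n + r)) ℂ := spa (cay π m) (fun j => algebraMap k ℂ (c j)) with hf
  have hU : ∀ b, IsLocalBIdeal (fam π m (fun j => algebraMap k ℂ (c j))) b →
      UnitEq True f ((Polynomial.X + 1) * b) := fun b hb => Pool.Agent.W423.NI.Root.unitEq π m _ b hb
  obtain ⟨S, hS, hz1⟩ := fin_W (cay π m) hℓ (fun σ => LocVI (cay π m) V σ ∧ ¬ PWI f (-σ)) (Dx n r)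
    (fun J _ q hq e he T0 hT0 σ hσ hlog => hb_ndY hℓ (cay π m) hv (yok_cay π m) V hV (PWI f)
      (fun α hα => rel_ndI hℓ (cay π m) hv _ hnd' V α hα) J q hq e he T0 hT0 σ hσ hlog)
  have hspa : ∀ {K : Type} [Field K] (c' : Fin ℓ → K), spa (cay π m) c' = sp 0 (cay π m) c' 1 := by
    intro K _ c'
    unfold sp spa
    simp
  refine ⟨S, fun p hp => ?_, ?_⟩
  · obtain ⟨a, ha, hg, hn, rfl⟩ := hS p hp
    refine ⟨pos_of_ray ha, Int.natCast_pos.2 hg, ?_⟩
    by_cases hdiv : ∃ z : ℤ, lev (cay π m) a = z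
    · left
      obtain ⟨z, hz⟩ := hdiv
      refine ⟨-z, ?_⟩
      have h1 : ((∑ i, a i : ℕ) : ℚ) = z * gord (cay π m) a := by
        have h2 : ((∑ i, a i : ℕ) : ℚ) / gord (cay π m) a = z := hz
        rwa [div_eq_iff (by exact_mod_cast hg.ne')] at h2
      have h2 : ((∑ i, a i : ℕ) : ℤ) = z * gord (cay π m) a := by exact_mod_cast h1
      show -((∑ i, a i : ℕ) : ℤ) = (gord (cay π m) a : ℤ) * -z
      rw [h2]
      ring
    · right
      intro b hb
      have hgC : ((gord (cay π m) a : ℕ) : ℂ) ≠ 0 := by exact_mod_cast hg.ne'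
      rcases HypVI_all hL a ha hg with h1 | ⟨a', hg', hN, z, hz⟩ | hloc
      · exact absurd h1 hdiv
      · obtain ⟨K, hK⟩ := relAll parts True (cay π m) _ hv hnd' _ (hU b hb)
        have h1 := a5 (cay π m) True (prodb _ K) hK a' hg' hN
        rw [prodb_eval, Finset.prod_eq_zero_iff] at h1
        obtain ⟨i, -, hi⟩ := h1
        rw [Polynomial.eval_mul] at hi
        rcases mul_eq_zero.1 hi with hi | hi
        · exfalso
          apply hdiv
          simp only [Polynomial.eval_add, Polynomial.eval_X, Polynomial.eval_one] at hi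
          refine ⟨z + 1 - i, ?_⟩
          have h3 : ((lev (cay π m) a' - (1 - (i : ℚ)) : ℚ) : ℂ) = ((0 : ℚ) : ℂ) := by
            have h4 : ((lev (cay π m) a' : ℚ) : ℂ) = ((∑ i, a' i : ℕ) : ℂ) / gord (cay π m) a' := by
              unfold lev
              push_cast
              rfl
            push_cast at h4 ⊢
            rw [h4]
            push_cast at hi
            linear_combination (-1) * hi
          have h5 : lev (cay π m) a' - (1 - (i : ℚ)) = 0 := by exact_mod_cast h3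
          rw [hz]
          push_cast
          linarith
        · refine ⟨(i : ℤ) - z, ?_⟩
          have h2 : ((∑ i, a i : ℕ) : ℂ) / gord (cay π m) a =
              ((∑ i, a' i : ℕ) : ℂ) / gord (cay π m) a' + z := by
            have := congrArg (fun q : ℚ => (q : ℂ)) hz
            unfold lev at this
            push_cast at this ⊢
            exact this
          have h3 : ((-((∑ i, a i : ℕ) : ℤ) : ℤ) : ℂ) / ((gord (cay π m) a : ℤ) : ℂ) -
              (((i : ℤ) - z : ℤ) : ℂ) = -(((∑ i, a' i : ℕ) : ℂ) / gord (cay π m) a') - i := by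
            push_cast at h2 ⊢
            rw [neg_div, h2]
            ring
          rw [h3]
          exact hi
      · have h1 : PWI f (-(((∑ i, a i : ℕ) : ℚ) / gord (cay π m) a)) := by
          by_contra hcon
          exact hn ⟨hloc, hcon⟩
        rcases h1 with ⟨z, hz⟩ | h1
        · exfalso
          apply hdiv
          refine ⟨-z, ?_⟩
          have h2 : lev (cay π m) a = ((∑ i, a i : ℕ) : ℚ) / gord (cay π m) a := rfl
          rw [h2]
          push_cast at hz ⊢
          linarith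
        · obtain ⟨i, hi⟩ := h1 b (hU b hb)
          refine ⟨i, ?_⟩
          have e : ((-((∑ i, a i : ℕ) : ℤ) : ℤ) : ℂ) / ((gord (cay π m) a : ℤ) : ℂ) =
              ((-(((∑ i, a i : ℕ) : ℚ) / gord (cay π m) a) : ℚ) : ℂ) := by
            push_cast
            ring
          rw [e]
          exact hi
  · intro K _ _
    have hK : CharZero K := charZero_of_injective_algebraMap (algebraMap k K).injective
    refine zetaI_mem _ _ ?_
    rw [gp_eq, hspa]
    exact hz1 K _ (nonG_of Pool.Agent.W67.MM.taskB1 k K (cay π m) c hℓ hnd')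
      (fun j => (map_ne_zero _).2 (hc j)) _ _ constr_W0 good_one (fun z hz => W0_Dx z hz)

end Pool.Agent.TH216.ID
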