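import Pool.Agent.TH216.MF.Rays

set_option autoImplicit false

/-! Directions which occur with exponent at most one, and not together. -/

namespace Pool.Agent.TH216.ID

open MvPolynomial Filter Pool.Agent.W425.SV
open Pool.Agent.TH216.MF

variable {r N : ℕ}

/-- the directions in `Y` occur with exponent at most `1` and not together -/
def YOK (v : Fin r → Fin N → ℕ) (Y : Finset (Fin N)) : Prop :=
  (∀ i ∈ Y, ∀ j, v j i ≤ 1) ∧ ∀ i ∈ Y, ∀ i' ∈ Y, ∀ j, v j i ≠ 0 → v j i' ≠ 0 → i = i'

/-- substitution of the `j0`-th point in the direction `i` -/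
noncomputable def evD (q : ℕ) (v : Fin r → Fin N → ℕ) (i : Fin N) (j0 : Fin r) :
    MvPolynomial (Fin r) ℂ →ₐ[ℂ] MvPolynomial (Fin r) ℂ :=
  aeval fun j => if v j i = 0 then X j else C (if j = j0 then (q : ℂ) else 1)

/-- the difference to the interpolation -/
noncomputable def psi (q : ℕ) (v : Fin r → Fin N → ℕ) (i : Fin N)
    (f : MvPolynomial (Fin r) ℂ) : MvPolynomial (Fin r) ℂ :=
  f - ∑ j0 ∈ Finset.univ.filter (fun j => v j i = 1),
    C (((q : ℂ) - 1)⁻¹) * ((X j0 - 1) * evD q v i j0 f)

/-- the ideal of the points of the direction `i` -/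
noncomputable def KI (q : ℕ) (v : Fin r → Fin N → ℕ) (i : Fin N) :
    Ideal (MvPolynomial (Fin r) ℂ) :=
  Ideal.span ({elm q v i} ∪ {g | ∃ j j', j ≠ j' ∧ v j i = 1 ∧ v j' i = 1 ∧
    g = (1 - X j) * (1 - X j')})

/-- products of `1 + z_j` with `z_j z_j' = 0` -/
lemma prod_one_add {R ι : Type} [CommRing R] [DecidableEq ι] (s : Finset ι) (z : ι → R)
    (h : ∀ a ∈ s, ∀ b ∈ s, a ≠ b → z a * z b = 0) : ∏ a ∈ s, (1 + z a) = 1 + ∑ a ∈ s, z a := by
  induction s using Finset.induction_on with
  | empty => simp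
  | insert a s ha ih =>
    have h1 := ih fun b hb c hc => h b (Finset.mem_insert_of_mem hb) c (Finset.mem_insert_of_mem hc)
    rw [Finset.prod_insert ha, Finset.sum_insert ha, h1]
    have h2 : z a * ∑ b ∈ s, z b = 0 := by
      rw [Finset.mul_sum]
      refine Finset.sum_eq_zero fun b hb => ?_
      refine h a (Finset.mem_insert_self _ _) b (Finset.mem_insert_of_mem hb) ?_
      rintro rfl
      exact ha hb
    linear_combination h2

lemma psi_mem {q : ℕ} (hq : 2 ≤ q) (v : Fin r → Fin N → ℕ) (i : Fin N)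
    (hi : ∀ j, v j i ≤ 1) (f : MvPolynomial (Fin r) ℂ) : psi q v i f ∈ KI q v i := by
  classical
  have hq0 : (q : ℂ) ≠ 0 := by
    have : q ≠ 0 := by omega
    exact_mod_cast this
  have hq1 : (q : ℂ) - 1 ≠ 0 := by
    rw [sub_ne_zero]
    exact_mod_cast (by omega : q ≠ 1)
  set I := KI q v i with hI
  set G : Finset (Fin r) := Finset.univ.filter (fun j => v j i = 1) with hG
  have hmG : ∀ j, j ∈ G ↔ v j i = 1 := fun j => by rw [hG]; simp
  set z : Fin r → MvPolynomial (Fin r) ℂ ⧸ I := fun j => Ideal.Quotient.mk I (X j - 1) with hz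
  set Q : MvPolynomial (Fin r) ℂ ⧸ I := Ideal.Quotient.mk I (C (q : ℂ)) with hQ
  set Qi : MvPolynomial (Fin r) ℂ ⧸ I := Ideal.Quotient.mk I (C ((q : ℂ)⁻¹)) with hQi
  have hQQ : Q * Qi = 1 := by
    rw [hQ, hQi, ← map_mul, ← C_mul, mul_inv_cancel₀ hq0, C_1, map_one]
  have hzz : ∀ j j', j ∈ G → j' ∈ G → j ≠ j' → z j * z j' = 0 := by
    intro j j' h1 h2 h3
    have h4 : Ideal.Quotient.mk I ((1 - X j) * (1 - X j')) = 0 :=
      Ideal.Quotient.eq_zero_iff_mem.2 (Ideal.subset_span (Or.inr
        ⟨j, j', h3, (hmG j).1 h1, (hmG j').1 h2, rfl⟩))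
    simp only [hz]
    rw [← map_mul, ← h4]
    congr 1
    ring
  have hX : ∀ j, Ideal.Quotient.mk I (X j) = 1 + z j := by
    intro j
    simp only [hz]
    rw [map_sub, map_one]
    ring
  have hS : ∑ j ∈ G, z j = Q - 1 := by
    have h4 : Ideal.Quotient.mk I (elm q v i) = 0 :=
      Ideal.Quotient.eq_zero_iff_mem.2 (Ideal.subset_span (Or.inl rfl))
    unfold elm at h4
    rw [map_sub, map_one, map_mul, map_prod] at h4
    have h5 : ∏ j, Ideal.Quotient.mk I (X j ^ v j i) = ∏ j ∈ G, (1 + z j) := by
      rw [hG, Finset.prod_filter]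
      refine Finset.prod_congr rfl fun j _ => ?_
      by_cases h : v j i = 1
      · rw [if_pos h, h, pow_one, hX]
      · rw [if_neg h]
        have h6 : v j i = 0 := by
          have := hi j
          omega
        rw [h6, pow_zero, map_one]
    rw [h5, prod_one_add G z (fun a ha b hb hab => hzz a b ha hb hab)] at h4
    linear_combination (-Q) * h4 + (1 + ∑ j ∈ G, z j) * (-hQQ)
  have hz2 : ∀ j ∈ G, z j * z j = z j * (Q - 1) := by
    intro j hj
    rw [← hS, Finset.mul_sum, Finset.sum_eq_single j]
    · intro j' hj' hne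
      exact hzz j j' hj hj' (Ne.symm hne)
    · intro h
      exact absurd hj h
  have hkey : ∀ j0 ∈ G, ∀ f : MvPolynomial (Fin r) ℂ,
      z j0 * Ideal.Quotient.mk I f = z j0 * Ideal.Quotient.mk I (evD q v i j0 f) := by
    intro j0 hj0 f
    induction f using MvPolynomial.induction_on with
    | C a =>
      unfold evD
      rw [algHom_C]
      rfl
    | add p p' hp hp' => rw [map_add, map_add, map_add, mul_add, mul_add, hp, hp']
    | mul_X p j hp =>
      have h1 : z j0 * Ideal.Quotient.mk I (X j) =
          z j0 * Ideal.Quotient.mk I (evD q v i j0 (X j)) := by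
        unfold evD
        rw [aeval_X]
        by_cases h2 : v j i = 0
        · rw [if_pos h2]
        · rw [if_neg h2]
          have h3 : j ∈ G := (hmG j).2 (by have := hi j; omega)
          rw [hX]
          by_cases h4 : j = j0
          · rw [if_pos h4, h4]
            have h5 := hz2 j0 hj0
            have h6 : Ideal.Quotient.mk I (C (q : ℂ)) = Q := rfl
            rw [h6]
            linear_combination h5
          · rw [if_neg h4, C_1, map_one]
            have h5 := hzz j0 j hj0 h3 (Ne.symm h4)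
            linear_combination h5
      rw [map_mul, map_mul, map_mul]
      calc z j0 * (Ideal.Quotient.mk I p * Ideal.Quotient.mk I (X j)) =
            (z j0 * Ideal.Quotient.mk I p) * Ideal.Quotient.mk I (X j) := by ring
        _ = (z j0 * Ideal.Quotient.mk I (X j)) * Ideal.Quotient.mk I (evD q v i j0 p) := by
            rw [hp]
            ring
        _ = _ := by
            rw [h1]
            ring
  rw [← Ideal.Quotient.eq_zero_iff_mem]
  unfold psi
  rw [map_sub, map_sum]
  have h1 : ∑ j0 ∈ G, Ideal.Quotient.mk I (C (((q : ℂ) - 1)⁻¹) * ((X j0 - 1) * evD q v i j0 f)) =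
      Ideal.Quotient.mk I (C (((q : ℂ) - 1)⁻¹)) * ((∑ j0 ∈ G, z j0) * Ideal.Quotient.mk I f) := by
    rw [Finset.sum_mul, Finset.mul_sum]
    refine Finset.sum_congr rfl fun j0 hj0 => ?_
    rw [map_mul, map_mul, hkey j0 hj0 f]
  rw [h1, hS]
  have h2 : Ideal.Quotient.mk I (C (((q : ℂ) - 1)⁻¹)) * (Q - 1) = 1 := by
    have h3 : Q - 1 = Ideal.Quotient.mk I (C ((q : ℂ) - 1)) := by
      rw [C_sub, map_sub, C_1, map_one]
    rw [h3, ← map_mul, ← C_mul, inv_mul_cancel₀ hq1, C_1, map_one]
  linear_combination (-Ideal.Quotient.mk I f) * h2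

lemma psi_add (q : ℕ) (v : Fin r → Fin N → ℕ) (i : Fin N) (f g : MvPolynomial (Fin r) ℂ) :
    psi q v i (f + g) = psi q v i f + psi q v i g := by
  unfold psi
  simp only [map_add, mul_add, Finset.sum_add_distrib]
  ring

lemma psi_mul (q : ℕ) (v : Fin r → Fin N → ℕ) (i : Fin N) (u f : MvPolynomial (Fin r) ℂ)
    (hu : ∀ j0, evD q v i j0 u = u) : psi q v i (u * f) = u * psi q v i f := by
  unfold psi
  rw [mul_sub, Finset.mul_sum]
  congr 1
  refine Finset.sum_congr rfl fun j0 _ => ?_
  rw [map_mul, hu]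
  ring

/-- the generators of the other directions are fixed -/
lemma evD_fix {q : ℕ} {v : Fin r → Fin N → ℕ} {Y : Finset (Fin N)} (hY : YOK v Y) {i i' : Fin N}
    (hi : i ∈ Y) (hi' : i' ∈ Y) (hne : i ≠ i') (j0 : Fin r) (g : MvPolynomial (Fin r) ℂ)
    (hg : g = elm q v i' ∨ ∃ j j', j ≠ j' ∧ v j i' = 1 ∧ v j' i' = 1 ∧
      g = (1 - X j) * (1 - X j')) : evD q v i j0 g = g := by
  have hX : ∀ j, v j i' ≠ 0 → evD q v i j0 (X j) = X j := by
    intro j hj
    unfold evD
    rw [aeval_X, if_pos]
    by_contra h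
    exact hne (hY.2 i hi i' hi' j h hj)
  rcases hg with rfl | ⟨j, j', -, h1, h2, rfl⟩
  · unfold elm
    rw [map_sub, map_one, map_mul, map_prod]
    congr 2
    · unfold evD
      rw [algHom_C]
      rfl
    · refine Finset.prod_congr rfl fun j _ => ?_
      rw [map_pow]
      by_cases h : v j i' = 0
      · rw [h, pow_zero, pow_zero]
      · rw [hX j h]
  · rw [map_mul, map_sub, map_sub, map_one, hX j (by omega), hX j' (by omega)]

/-- the products of the ideals are stable -/
lemma stab {q : ℕ} (hq : 2 ≤ q) {v : Fin r → Fin N → ℕ} {Y : Finset (Fin N)} (hY : YOK v Y)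
    {i : Fin N} (hi : i ∈ Y) (s : Finset (Fin N)) (hs : s ⊆ Y) (his : i ∉ s) :
    ∀ x ∈ ∏ i' ∈ s, KI q v i', psi q v i x ∈ KI q v i * ∏ i' ∈ s, KI q v i' := by
  classical
  induction s using Finset.induction_on with
  | empty =>
    intro x _
    rw [Finset.prod_empty, mul_one]
    exact psi_mem hq v i (hY.1 i hi) x
  | insert a s ha ih =>
    have ih' := ih (fun b hb => hs (Finset.mem_insert_of_mem hb))
      (fun h => his (Finset.mem_insert_of_mem h))
    have haY : a ∈ Y := hs (Finset.mem_insert_self _ _)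
    have hia : i ≠ a := fun h => his (h ▸ Finset.mem_insert_self _ _)
    intro x hx
    rw [Finset.prod_insert ha] at hx ⊢
    have key : ∀ u ∈ KI q v a, ∀ y ∈ ∏ i' ∈ s, KI q v i',
        psi q v i (u * y) ∈ KI q v i * (KI q v a * ∏ i' ∈ s, KI q v i') := by
      intro u hu
      unfold KI at hu
      induction hu using Submodule.span_induction with
      | mem g hg =>
        intro y hy
        have hgK : g ∈ KI q v a := Ideal.subset_span hg
        rw [psi_mul q v i g y fun j0 => evD_fix hY hi haY hia j0 g (by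
          rcases hg with hg | hg
          · exact Or.inl hg
          · exact Or.inr hg)]
        have h1 := ih' y hy
        have h2 := Ideal.mul_mem_mul hgK h1
        have h3 : KI q v a * (KI q v i * ∏ i' ∈ s, KI q v i') =
            KI q v i * (KI q v a * ∏ i' ∈ s, KI q v i') := by
          rw [← mul_assoc, ← mul_assoc, mul_comm (KI q v a)]
        rw [h3] at h2
        exact h2
      | zero =>
        intro y _
        rw [zero_mul]
        have : psi q v i 0 = 0 := by
          unfold psi
          simp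
        rw [this]
        exact Ideal.zero_mem _
      | add u u' _ _ h1 h2 =>
        intro y hy
        rw [add_mul, psi_add]
        exact Ideal.add_mem _ (h1 y hy) (h2 y hy)
      | smul b u _ h1 =>
        intro y hy
        have e : b • u * y = u * (b * y) := by
          rw [smul_eq_mul]
          ring
        rw [e]
        exact h1 (b * y) (Ideal.mul_mem_left _ _ hy)
    refine Submodule.mul_induction_on hx (fun u hu y hy => key u hu y hy) fun x y hx hy => ?_
    rw [psi_add]
    exact Ideal.add_mem _ hx hy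

/-- the kernel -/
lemma kern_prod {q : ℕ} (hq : 2 ≤ q) {v : Fin r → Fin N → ℕ} {Y : Finset (Fin N)} (hY : YOK v Y)
    {k : MvPolynomial (Fin r) ℂ} (hk : Kern q v k) (s : Finset (Fin N)) (hs : s ⊆ Y) :
    k ∈ ∏ i ∈ s, KI q v i := by
  classical
  induction s using Finset.induction_on with
  | empty =>
    rw [Finset.prod_empty, Ideal.one_eq_top]
    trivial
  | insert a s ha ih =>
    have ih' := ih fun b hb => hs (Finset.mem_insert_of_mem hb)
    have haY : a ∈ Y := hs (Finset.mem_insert_self _ _)
    rw [Finset.prod_insert ha]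
    have h1 := stab hq hY haY s (fun b hb => hs (Finset.mem_insert_of_mem hb)) ha k ih'
    have h2 : psi q v a k = k := by
      unfold psi
      rw [sub_eq_self]
      refine Finset.sum_eq_zero fun j0 hj0 => ?_
      rw [Finset.mem_filter] at hj0
      have h3 : evD q v a j0 k = 0 := by
        have h4 := hk a j0 hj0.2
        have h5 : Ideal.span {g : MvPolynomial (Fin r) ℂ | ∃ j, 0 < v j a ∧
            g = X j - C (if j = j0 then (q : ℂ) else 1)} ≤
            RingHom.ker (evD q v a j0 : MvPolynomial (Fin r) ℂ →+* MvPolynomial (Fin r) ℂ) := by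
          rw [Ideal.span_le]
          rintro g ⟨j, hj, rfl⟩
          show evD q v a j0 _ = 0
          rw [map_sub]
          unfold evD
          rw [aeval_X, if_neg (by omega), algHom_C]
          exact sub_self _
        exact h5 h4
      rw [h3, mul_zero, mul_zero]
    rw [h2] at h1
    exact h1

end Pool.Agent.TH216.ID
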