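import Pool.Agent.TH216.ID.Cr1
import Pool.Agent.TH216.MF.MotA

set_option autoImplicit false

/-! The criterion, without a condition on the facets which have an apex in a direction in `Y`. -/

namespace Pool.Agent.TH216.ID

open MvPolynomial Filter Pool.Agent.W425.SV
open Pool.Agent.TH216.MF

variable {r N : ℕ}

/-- the third kind of the pairs `A`, `Z` -/
def ApY (v : Fin r → Fin N → ℕ) (Y : Finset (Fin N)) (A : Finset (Fin N)) (Z : Finset (Fin r)) :
    Prop :=
  ∀ (A' : Finset (Fin N)) (Z' : Finset (Fin r)), A' ⊆ A → Z' ⊆ Z → (Pt v A' Z').Nonempty →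
    ∃ a ∈ Pt v A' Z', ∃ i ∈ Y, a i ≠ 0 ∧ ∀ j j', ∑ x, a x * (v j x : ℚ) = 1 →
      ∑ x, a x * (v j' x : ℚ) = 1 → v j i ≠ 0 → v j' i ≠ 0 → j = j'

/-- the condition on the faces at the level `σ` -/
def HypSY (v : Fin r → Fin N → ℕ) (Y : Finset (Fin N)) (σ : ℝ) : Prop :=
  ∀ (A : Finset (Fin N)) (Z : Finset (Fin r)), (Pt v A Z).Nonempty →
    (∀ a ∈ Pt v A Z, ((∑ i, a i : ℚ) : ℝ) = σ) → (∀ i ∈ A, ∃ j, j ∉ Z ∧ 0 < v j i) →
    Forced v A Z ∨
    (∃ i ∈ A, ∃ j0, v j0 i = 1 ∧ (∀ a ∈ Pt v A Z, a i ≠ 0) ∧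
      ∀ j, j ≠ j0 → 0 < v j i → ∀ a ∈ Pt v A Z, ∑ i, a i * (v j i : ℚ) ≠ 1) ∨
    ApY v Y A Z

/-- the product of the local equations -/
noncomputable def mu (q : ℕ) (v : Fin r → Fin N → ℕ) (A : Finset (Fin N)) (Z : Finset (Fin r))
    (A' : Finset (Fin N)) (Z' : Finset (Fin r)) : MvPolynomial (Fin r) ℂ :=
  (∏ i ∈ A \ A', elm q v i) * ∏ j ∈ Z \ Z', (1 - X j)

lemma mu_eraseA (q : ℕ) (v : Fin r → Fin N → ℕ) (A : Finset (Fin N)) (Z : Finset (Fin r))
    (A' : Finset (Fin N)) (Z' : Finset (Fin r)) (hA : A' ⊆ A) (i : Fin N) (hi : i ∈ A') :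
    mu q v A Z (A'.erase i) Z' = elm q v i * mu q v A Z A' Z' := by
  classical
  unfold mu
  have h1 : A \ A'.erase i = insert i (A \ A') := by
    ext x
    simp only [Finset.mem_sdiff, Finset.mem_erase, Finset.mem_insert, not_and]
    constructor
    · rintro ⟨h1, h2⟩
      by_cases hx : x = i
      · exact Or.inl hx
      · exact Or.inr ⟨h1, h2 hx⟩
    · rintro (rfl | ⟨h1, h2⟩)
      · exact ⟨hA hi, fun h => absurd rfl h⟩
      · exact ⟨h1, fun _ => h2⟩
  rw [h1, Finset.prod_insert fun h => (Finset.mem_sdiff.1 h).2 hi]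
  ring

lemma mu_eraseZ (q : ℕ) (v : Fin r → Fin N → ℕ) (A : Finset (Fin N)) (Z : Finset (Fin r))
    (A' : Finset (Fin N)) (Z' : Finset (Fin r)) (hZ : Z' ⊆ Z) (j : Fin r) :
    mu q v A Z A' (Z'.erase j) ∣ (1 - X j) * mu q v A Z A' Z' := by
  classical
  by_cases hj : j ∈ Z'
  · unfold mu
    have h1 : Z \ Z'.erase j = insert j (Z \ Z') := by
      ext x
      simp only [Finset.mem_sdiff, Finset.mem_erase, Finset.mem_insert, not_and]
      constructor
      · rintro ⟨h1, h2⟩
        by_cases hx : x = j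
        · exact Or.inl hx
        · exact Or.inr ⟨h1, h2 hx⟩
      · rintro (rfl | ⟨h1, h2⟩)
        · exact ⟨hZ hj, fun h => absurd rfl h⟩
        · exact ⟨h1, fun _ => h2⟩
    rw [h1, Finset.prod_insert fun h => (Finset.mem_sdiff.1 h).2 hj]
    exact ⟨1, by ring⟩
  · rw [Finset.erase_eq_of_notMem hj]
    exact Dvd.intro_left _ rfl

/-- the local membership of the products -/
lemma step_mem (q : ℕ) (v : Fin r → Fin N → ℕ) (Y : Finset (Fin N))
    (t : Fin r → ℂ) (A : Finset (Fin N)) (Z : Finset (Fin r))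
    (hA : ∀ i, i ∈ A ↔ aeval t (elm q v i) = 0) (hZ : ∀ j, j ∈ Z ↔ t j = 1)
    (hap : ApY v Y A Z) (s : Finset (Fin N)) (hs : s ⊆ Y) :
    ∀ (A' : Finset (Fin N)) (Z' : Finset (Fin r)), A' ⊆ A → Z' ⊆ Z →
      (∀ i ∈ Y, i ∉ s → i ∉ A' ∨ ∃ j j', j ≠ j' ∧ v j i ≠ 0 ∧ v j' i ≠ 0 ∧ j ∉ Z' ∧ j' ∉ Z') →
      ∀ x ∈ ∏ i ∈ s, KI q v i, ∃ g : MvPolynomial (Fin r) ℂ, aeval t g ≠ 0 ∧
        g * x * mu q v A Z A' Z' ∈ I1 q v := by
  classical
  -- closure properties
  have hadd : ∀ (μ x y : MvPolynomial (Fin r) ℂ),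
      (∃ g : MvPolynomial (Fin r) ℂ, aeval t g ≠ 0 ∧ g * x * μ ∈ I1 q v) →
      (∃ g : MvPolynomial (Fin r) ℂ, aeval t g ≠ 0 ∧ g * y * μ ∈ I1 q v) →
      ∃ g : MvPolynomial (Fin r) ℂ, aeval t g ≠ 0 ∧ g * (x + y) * μ ∈ I1 q v := by
    rintro μ x y ⟨g, hg, h1⟩ ⟨g', hg', h2⟩
    refine ⟨g * g', by rw [map_mul]; exact mul_ne_zero hg hg', ?_⟩
    have e : g * g' * (x + y) * μ = g' * (g * x * μ) + g * (g' * y * μ) := by ring
    rw [e]
    exact (I1 q v).add_mem (Ideal.mul_mem_left _ _ h1) (Ideal.mul_mem_left _ _ h2)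
  induction s using Finset.induction_on with
  | empty =>
    intro A' Z' hA' hZ' hcond x _
    have hempty : ¬ (Pt v A' Z').Nonempty := by
      intro hne
      obtain ⟨a, ha, i, hi, hai, huniq⟩ := hap A' Z' hA' hZ' hne
      rcases hcond i hi (Finset.notMem_empty i) with h | ⟨j, j', hne', h1, h2, h3, h4⟩
      · exact hai (ha.2.1 i h)
      · exact hne' (huniq j j' (ha.2.2.2 j h3) (ha.2.2.2 j' h4) h1 h2)
    obtain ⟨c, hc, hcZ⟩ := kil1_of_empty v A' Z' hempty
    set g : MvPolynomial (Fin r) ℂ := (∏ i ∈ Finset.univ \ A, elm q v i) *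
      ∏ j ∈ Finset.univ \ Z, (1 - X j) with hg
    refine ⟨g, ?_, ?_⟩
    · rw [hg, map_mul, map_prod, map_prod]
      refine mul_ne_zero (Finset.prod_ne_zero_iff.2 fun i hi => ?_)
        (Finset.prod_ne_zero_iff.2 fun j hj => ?_)
      · rw [Finset.mem_sdiff] at hi
        exact fun h => hi.2 ((hA i).2 h)
      · rw [Finset.mem_sdiff] at hj
        rw [map_sub, map_one, aeval_X, sub_ne_zero]
        exact fun h => hj.2 ((hZ j).2 h.symm)
    · have h1 : g * mu q v A Z A' Z' = (∏ i ∈ Finset.univ \ A', elm q v i) *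
          ∏ j ∈ Finset.univ \ Z', (1 - X j) := by
        have h2 : (∏ i ∈ Finset.univ \ A, elm q v i) * ∏ i ∈ A \ A', elm q v i =
            ∏ i ∈ Finset.univ \ A', elm q v i := by
          rw [← Finset.prod_union]
          · congr 1
            ext i
            simp only [Finset.mem_union, Finset.mem_sdiff, Finset.mem_univ, true_and]
            constructor
            · rintro (h | ⟨-, h⟩)
              · exact fun h' => h (hA' h')
              · exact h
            · intro h
              by_cases h' : i ∈ A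
              · exact Or.inr ⟨h', h⟩
              · exact Or.inl h'
          · rw [Finset.disjoint_left]
            intro i h3 h4
            exact (Finset.mem_sdiff.1 h3).2 (Finset.mem_sdiff.1 h4).1
        have h3 : (∏ j ∈ Finset.univ \ Z, (1 - X j : MvPolynomial (Fin r) ℂ)) *
            ∏ j ∈ Z \ Z', (1 - X j) = ∏ j ∈ Finset.univ \ Z', (1 - X j) := by
          rw [← Finset.prod_union]
          · congr 1
            ext i
            simp only [Finset.mem_union, Finset.mem_sdiff, Finset.mem_univ, true_and]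
            constructor
            · rintro (h | ⟨-, h⟩)
              · exact fun h' => h (hZ' h')
              · exact h
            · intro h
              by_cases h' : i ∈ Z
              · exact Or.inr ⟨h', h⟩
              · exact Or.inl h'
          · rw [Finset.disjoint_left]
            intro i h3 h4
            exact (Finset.mem_sdiff.1 h3).2 (Finset.mem_sdiff.1 h4).1
        rw [← h2, ← h3, hg]
        unfold mu
        ring
      have h2 : (∏ j, (if c j < 0 then (1 - X j) else 1) : MvPolynomial (Fin r) ℂ) ∣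
          ∏ j ∈ Finset.univ \ Z', (1 - X j) := by
        rw [← Finset.prod_filter]
        refine Finset.prod_dvd_prod_of_subset _ _ _ fun j hj => ?_
        rw [Finset.mem_filter] at hj
        exact Finset.mem_sdiff.2 ⟨Finset.mem_univ _, hcZ j hj.2⟩
      obtain ⟨d, hd⟩ := h2
      have e : g * x * mu q v A Z A' Z' = ((∏ i ∈ Finset.univ \ A', elm q v i) *
          ∏ j, (if c j < 0 then (1 - X j) else 1)) * (d * x) := by
        have e1 : g * x * mu q v A Z A' Z' = (g * mu q v A Z A' Z') * x := by ring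
        rw [e1, h1, hd]
        ring
      rw [e]
      exact Ideal.mul_mem_right _ _ (Ideal.subset_span ⟨c, _, hc, rfl⟩)
  | insert i s hi ih =>
    intro A' Z' hA' hZ' hcond x hx
    rw [Finset.prod_insert hi] at hx
    have ih' := ih fun b hb => hs (Finset.mem_insert_of_mem hb)
    have key : ∀ u ∈ KI q v i, ∀ y ∈ ∏ i' ∈ s, KI q v i',
        ∃ g : MvPolynomial (Fin r) ℂ, aeval t g ≠ 0 ∧ g * (u * y) * mu q v A Z A' Z' ∈ I1 q v := by
      intro u hu
      unfold KI at hu
      induction hu using Submodule.span_induction with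
      | mem h hh =>
        intro y hy
        rcases hh with hh | ⟨j, j', hne, h1, h2, hh⟩
        · rw [Set.mem_singleton_iff.1 hh]
          by_cases hiA : i ∈ A'
          · obtain ⟨g, hg, hgI⟩ := ih' (A'.erase i) Z' ((Finset.erase_subset _ _).trans hA') hZ'
              (fun i' hi' his => by
                by_cases h3 : i' = i
                · left
                  rw [h3]
                  exact Finset.notMem_erase _ _
                · rcases hcond i' hi' (by
                    rw [Finset.mem_insert, not_or]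
                    exact ⟨h3, his⟩) with h4 | h4
                  · exact Or.inl fun h5 => h4 (Finset.mem_of_mem_erase h5)
                  · exact Or.inr h4) y hy
            refine ⟨g, hg, ?_⟩
            rw [mu_eraseA q v A Z A' Z' hA' i hiA] at hgI
            have e : g * (elm q v i * y) * mu q v A Z A' Z' =
                g * y * (elm q v i * mu q v A Z A' Z') := by ring
            rw [e]
            exact hgI
          · obtain ⟨g, hg, hgI⟩ := ih' A' Z' hA' hZ' (fun i' hi' his => by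
                by_cases h3 : i' = i
                · exact Or.inl (h3 ▸ hiA)
                · exact hcond i' hi' (by
                    rw [Finset.mem_insert, not_or]
                    exact ⟨h3, his⟩)) y hy
            refine ⟨g, hg, ?_⟩
            have e : g * (elm q v i * y) * mu q v A Z A' Z' =
                elm q v i * (g * y * mu q v A Z A' Z') := by ring
            rw [e]
            exact Ideal.mul_mem_left _ _ hgI
        · rw [hh]
          obtain ⟨g, hg, hgI⟩ := ih' A' ((Z'.erase j).erase j') hA'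
            (((Finset.erase_subset _ _).trans (Finset.erase_subset _ _)).trans hZ')
            (fun i' hi' his => by
              by_cases h3 : i' = i
              · right
                refine ⟨j, j', hne, by rw [h3]; omega, by rw [h3]; omega, fun h4 => ?_,
                  Finset.notMem_erase _ _⟩
                exact Finset.notMem_erase j Z' (Finset.mem_of_mem_erase h4)
              · rcases hcond i' hi' (by
                  rw [Finset.mem_insert, not_or]
                  exact ⟨h3, his⟩) with h4 | ⟨j1, j2, h4, h5, h6, h7, h8⟩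
                · exact Or.inl h4
                · refine Or.inr ⟨j1, j2, h4, h5, h6, fun h9 => h7 ?_, fun h9 => h8 ?_⟩
                  · exact Finset.mem_of_mem_erase (Finset.mem_of_mem_erase h9)
                  · exact Finset.mem_of_mem_erase (Finset.mem_of_mem_erase h9)) y hy
          refine ⟨g, hg, ?_⟩
          obtain ⟨d1, hd1⟩ := mu_eraseZ q v A Z A' Z' hZ' j
          obtain ⟨d2, hd2⟩ := mu_eraseZ q v A Z A' (Z'.erase j)
            ((Finset.erase_subset _ _).trans hZ') j'
          have e : g * ((1 - X j) * (1 - X j') * y) * mu q v A Z A' Z' =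
              (g * y * mu q v A Z A' ((Z'.erase j).erase j')) * (d2 * d1) := by
            have e1 : g * ((1 - X j) * (1 - X j') * y) * mu q v A Z A' Z' =
                g * y * (1 - X j') * ((1 - X j) * mu q v A Z A' Z') := by ring
            have e2 : (g * y * mu q v A Z A' ((Z'.erase j).erase j')) * (d2 * d1) =
                g * y * (mu q v A Z A' ((Z'.erase j).erase j') * d2) * d1 := by ring
            rw [e1, hd1, e2, ← hd2]
            ring
          rw [e]
          exact Ideal.mul_mem_right _ _ hgI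
      | zero =>
        intro y _
        exact ⟨1, by rw [map_one]; exact one_ne_zero, by simp⟩
      | add u u' _ _ h1 h2 =>
        intro y hy
        rw [add_mul]
        exact hadd _ _ _ (h1 y hy) (h2 y hy)
      | smul b u _ h1 =>
        intro y hy
        obtain ⟨g, hg, hgI⟩ := h1 y hy
        refine ⟨g, hg, ?_⟩
        have e : g * (b • u * y) * mu q v A Z A' Z' = b * (g * (u * y) * mu q v A Z A' Z') := by
          rw [smul_eq_mul]
          ring
        rw [e]
        exact Ideal.mul_mem_left _ _ hgI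
    exact Submodule.mul_induction_on hx (fun u hu y hy => key u hu y hy)
      fun x y hx hy => hadd _ _ _ hx hy

/-- at the points of the third kind the kernel is in the ideal -/
lemma local_memY (q : ℕ) (hq : 2 ≤ q) (v : Fin r → Fin N → ℕ) (Y : Finset (Fin N))
    (hY : YOK v Y) (k : MvPolynomial (Fin r) ℂ)
    (hk : Kern q v k) (t : Fin r → ℂ) (A : Finset (Fin N)) (Z : Finset (Fin r))
    (hA : ∀ i, i ∈ A ↔ aeval t (elm q v i) = 0) (hZ : ∀ j, j ∈ Z ↔ t j = 1)
    (hap : ApY v Y A Z) :
    ∃ g : MvPolynomial (Fin r) ℂ, aeval t g ≠ 0 ∧ k * g ∈ I1 q v := by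
  classical
  obtain ⟨g, hg, hgI⟩ := step_mem q v Y t A Z hA hZ hap Y (Finset.Subset.refl _) A Z
    (Finset.Subset.refl _) (Finset.Subset.refl _) (fun i hi h => absurd hi h) k
    (kern_prod hq hY hk Y (Finset.Subset.refl _))
  refine ⟨g, hg, ?_⟩
  have h1 : mu q v A Z A Z = 1 := by
    unfold mu
    simp
  rw [h1, mul_one, mul_comm] at hgI
  exact hgI

/-- **The criterion.** -/
theorem crit_of_hypY (q : ℕ) (hq : 2 ≤ q) (v : Fin r → Fin N → ℕ) (Y : Finset (Fin N))
    (hY : YOK v Y) (k : MvPolynomial (Fin r) ℂ)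
    (hk : Kern q v k) (T0 : ℂ) (hT0 : T0 ≠ 0) (w0 : Fin r → ℕ)
    (hσ : HypSY v Y (Real.log ‖T0‖ / Real.log q)) : Crit q v k T0 w0 := by
  classical
  obtain ⟨G, hG, hGG⟩ := exG v
  obtain ⟨E, Q, hQ, hQI⟩ := stepC q hq v T0
  have hq0 : (q : ℂ) ≠ 0 := by
    have : q ≠ 0 := by omega
    exact_mod_cast this
  have hq1 : (1 : ℝ) < q := by exact_mod_cast (by omega : 1 < q)
  have hlog : Real.log q ≠ 0 := (Real.log_pos hq1).ne'
  -- the finitely many values
  have hκ : ∀ p : Finset (Fin N) × Finset (Fin r), ∃ κ : ℤ, Forced v p.1 p.2 →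
      ∀ t : Fin r → ℂ, (∀ j, t j ≠ 0) → (∀ i ∈ p.1, aeval t (elm q v i) = 0) →
      (∀ j ∈ p.2, t j = 1) → (∏ j, t j ^ w0 j) ^ G = (q : ℂ) ^ κ := by
    intro p
    by_cases hp : Forced v p.1 p.2
    · obtain ⟨κ, hκ⟩ := forced_value q hq v G hGG p.1 p.2 hp w0
      exact ⟨κ, fun _ => hκ⟩
    · exact ⟨0, fun h => absurd h hp⟩
  choose κ hκ using hκ
  let J : Ideal (MvPolynomial (Fin r) ℂ) :=
    { carrier := {y | k * y ∈ I1 q v}
      add_mem' := by
        intro a b ha hb
        simp only [Set.mem_ofPred_eq, mul_add] at *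
        exact (I1 q v).add_mem ha hb
      zero_mem' := by simp
      smul_mem' := by
        intro c a ha
        simp only [Set.mem_ofPred_eq, smul_eq_mul] at *
        have e : k * (c * a) = c * (k * a) := by ring
        rw [e]
        exact (I1 q v).mul_mem_left _ ha }
  have hIJ : I1 q v ≤ J := fun x hx => (I1 q v).mul_mem_left _ hx
  set K : Ideal (MvPolynomial (Fin r) ℂ) := J ⊔ Ideal.span {tau r - C T0} with hK
  set Pi : MvPolynomial (Fin r) ℂ := ∏ p : Finset (Fin N) × Finset (Fin r),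
    (um w0 ^ G - C ((q : ℂ) ^ κ p)) with hPi
  have hrad : Pi ∈ K.radical := by
    rw [← vanishingIdeal_zeroLocus_eq_radical (K := ℂ), mem_vanishingIdeal_iff]
    intro t ht
    have htau : ∏ j, t j = T0 := by
      have h3 := (mem_zeroLocus_iff.1 ht) (tau r - C T0)
        (Ideal.mem_sup_right (Ideal.subset_span rfl))
      unfold tau at h3
      rw [map_sub, map_prod, sub_eq_zero] at h3
      simpa [algHom_C] using h3
    have ht0 : ∀ j, t j ≠ 0 := by
      intro j hj
      apply hT0
      rw [← htau]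
      exact Finset.prod_eq_zero (Finset.mem_univ j) hj
    have htJ : ∀ g ∈ J, aeval t g = 0 := fun g hg =>
      (mem_zeroLocus_iff.1 ht) g (Ideal.mem_sup_left hg)
    have htI : t ∈ zeroLocus ℂ (I1 q v) := mem_zeroLocus_iff.2 fun g hg => htJ g (hIJ hg)
    set A : Finset (Fin N) := Finset.univ.filter fun i => aeval t (elm q v i) = 0 with hA
    set Z : Finset (Fin r) := Finset.univ.filter fun j => t j = 1 with hZ
    have hA' : ∀ i, i ∈ A ↔ aeval t (elm q v i) = 0 := fun i => by
      rw [hA, Finset.mem_filter]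
      exact ⟨fun h => h.2, fun h => ⟨Finset.mem_univ _, h⟩⟩
    have hZ' : ∀ j, j ∈ Z ↔ t j = 1 := fun j => by
      rw [hZ, Finset.mem_filter]
      exact ⟨fun h => h.2, fun h => ⟨Finset.mem_univ _, h⟩⟩
    obtain ⟨a, ha, haA, haj, haZ⟩ := zero_pair q v t htI
    have hne : (Pt v A Z).Nonempty := ⟨a, ha, fun i hi => haA i fun h => hi ((hA' i).2 h), haj,
      fun j hj => haZ j fun h => hj ((hZ' j).2 h)⟩
    have hsum : ∀ a ∈ Pt v A Z, ((∑ i, a i : ℚ) : ℝ) = Real.log ‖T0‖ / Real.log q := by
      rintro a ⟨h1, h2, h3, h4⟩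
      obtain ⟨s, b, hs, hb1, hb2⟩ := pair_int' v A Z a h1 h2 h4
      have h5 := tau_pow q hq v t s b (fun i hi => hb1.1 i fun h => hi ((hA' i).1 h))
        (fun j hj => hb2 j fun h => hj ((hZ' j).1 h))
      rw [htau] at h5
      have h6 := congrArg (fun z : ℂ => Real.log ‖z‖) h5
      simp only [norm_pow, Complex.norm_natCast, Real.log_pow] at h6
      have h7 : ((∑ i, b i : ℕ) : ℝ) = (s : ℝ) * ((∑ i, a i : ℚ) : ℝ) := by
        have h8 : ((∑ i, b i : ℕ) : ℚ) = (s : ℚ) * ∑ i, a i := by
          push_cast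
          rw [Finset.mul_sum]
          exact Finset.sum_congr rfl fun i _ => by rw [hb1.2 i, mul_comm]
        have h9 := congrArg (fun z : ℚ => (z : ℝ)) h8
        push_cast at h9 ⊢
        exact h9
      rw [h7] at h6
      have hs' : (s : ℝ) ≠ 0 := by exact_mod_cast hs.ne'
      rw [eq_div_iff hlog]
      apply mul_left_cancel₀ hs'
      linarith
    have hprem : ∀ i ∈ A, ∃ j, j ∉ Z ∧ 0 < v j i := by
      intro i hi
      by_contra hcon
      push Not at hcon
      have h1 := (norm_rel q hq v t i ht0 ((hA' i).1 hi)).1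
      have h2 : ∏ j, t j ^ v j i = 1 := by
        refine Finset.prod_eq_one fun j _ => ?_
        by_cases hj : j ∈ Z
        · rw [(hZ' j).1 hj, one_pow]
        · rw [Nat.le_zero.1 (hcon j hj), pow_zero]
      rw [h2] at h1
      have h3 : (q : ℕ) = 1 := by exact_mod_cast h1.symm
      omega
    rcases hσ A Z hne hsum hprem with hF | hB | hB
    · have h1 := hκ (A, Z) hF t ht0 (fun i hi => (hA' i).1 hi) (fun j hj => (hZ' j).1 hj)
      rw [hPi, map_prod]
      refine Finset.prod_eq_zero (Finset.mem_univ (A, Z)) ?_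
      have h2 : aeval t (um w0 : MvPolynomial (Fin r) ℂ) = ∏ j, t j ^ w0 j := by
        unfold um
        rw [map_prod]
        simp
      rw [map_sub, map_pow, h2, h1]
      simp [algHom_C]
    · exfalso
      obtain ⟨g, hg, hgI⟩ := local_mem q hq v k hk t A Z hA' hZ' hne hB
      exact hg (htJ g hgI)
    · exfalso
      obtain ⟨g, hg, hgI⟩ := local_memY q hq v Y hY k hk t A Z hA' hZ' hB
      exact hg (htJ g hgI)
  obtain ⟨n, hn⟩ := Ideal.mem_radical_iff.1 hrad
  obtain ⟨b, hb, x, hx, hbx⟩ := Submodule.mem_sup.1 hn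
  obtain ⟨y, hy⟩ := Ideal.mem_span_singleton'.1 hx
  obtain ⟨d, hd⟩ : b ∣ (b + x) ^ E - x ^ E := by
    have := sub_dvd_pow_sub_pow (b + x) x E
    rwa [add_sub_cancel_right] at this
  refine ⟨(∏ p : Finset (Fin N) × Finset (Fin r),
    (Polynomial.X ^ G - Polynomial.C ((q : ℂ) ^ κ p))) ^ (n * E), Q, ?_, hQ, ?_⟩
  · rw [Polynomial.eval_pow, Polynomial.eval_prod]
    refine pow_ne_zero _ (Finset.prod_ne_zero_iff.2 fun p _ => ?_)
    rw [Polynomial.eval_sub, Polynomial.eval_pow, Polynomial.eval_X, Polynomial.eval_C,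
      zero_pow hG.ne', zero_sub]
    exact neg_ne_zero.2 (zpow_ne_zero _ hq0)
  · have h1 : Polynomial.aeval (um w0) ((∏ p : Finset (Fin N) × Finset (Fin r),
        (Polynomial.X ^ G - Polynomial.C ((q : ℂ) ^ κ p))) ^ (n * E)) = Pi ^ (n * E) := by
      rw [map_pow, map_prod, hPi]
      congr 1
      refine Finset.prod_congr rfl fun p _ => ?_
      rw [map_sub, map_pow, Polynomial.aeval_X, Polynomial.aeval_C]
      rfl
    have e2 : ∀ n, Polynomial.aeval (tau r) ((Polynomial.X - Polynomial.C T0) ^ n) =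
        (tau r - C T0) ^ n := by
      intro n
      rw [map_pow, map_sub, Polynomial.aeval_X, Polynomial.aeval_C]
      rfl
    rw [map_mul, e2] at hQI
    have h2 : k * (Polynomial.aeval (tau r) Q * Pi ^ (n * E)) =
        (k * b) * (d * Polynomial.aeval (tau r) Q) +
          (k * y ^ E) * ((tau r - C T0) ^ E * Polynomial.aeval (tau r) Q) := by
      have h3 : Pi ^ (n * E) = b * d + (y * (tau r - C T0)) ^ E := by
        rw [pow_mul, ← hbx, ← hd, hy]
        ring
      rw [h3, mul_pow]
      ring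
    rw [h1, h2]
    exact (I1 q v).add_mem ((I1 q v).mul_mem_right _ hb) ((I1 q v).mul_mem_left _ hQI)


/-- the recurrence -/
theorem recJ_genY (q : ℕ) (hq : 2 ≤ q) (v : Fin r → Fin N → ℕ) (Y : Finset (Fin N))
    (hY : YOK v Y) (p : Polynomial ℂ)
    (θ : Fin r → ℤ) (hrel : RelG v (Kil1 v) (KilU v θ) p) (J : Finset (Fin N))
    (e : Finset (Fin r) → ℂ)
    (he : KRelJ q v J e) (T0 : ℂ) (hT0 : T0 ≠ 0)
    (hp : p.eval ((-Real.log ‖T0‖ / Real.log q : ℝ) : ℂ) ≠ 0)
    (hσ : HypSY v Y (Real.log ‖T0‖ / Real.log q)) : RecJ q v e J T0 := by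
  have hp0 : p ≠ 0 := by
    rintro rfl
    exact hp Polynomial.eval_zero
  set D : ℤ := ∑ j, |θ j| with hD
  have hθD : ∀ j, 0 ≤ D - θ j := by
    intro j
    have h1 := Finset.single_le_sum (f := fun j => |θ j|) (fun j _ => abs_nonneg _)
      (Finset.mem_univ j)
    have h3 := le_abs_self (θ j)
    have h4 : |θ j| ≤ D := h1
    linarith
  obtain ⟨Q, hQ, hZ⟩ := coreU q hq v p θ D (fun j => (D - θ j).toNat)
    (fun j => Int.toNat_of_nonneg (hθD j)) hrel _ (kern_J hq v J e he) T0 hT0 hp0
    (crit_of_hypY q hq v Y hY _ (kern_J hq v J e he) T0 hT0 _ hσ)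
  have h0 : p.rootMultiplicity ((-Real.log ‖T0‖ / Real.log q : ℝ) : ℂ) = 0 :=
    Polynomial.rootMultiplicity_eq_zero hp
  have hZ := hZ 1
  rw [h0, pow_zero, mul_one, mul_one] at hZ
  exact ⟨Q, hQ, rec_aJ q hq v e J Q hZ⟩

end Pool.Agent.TH216.ID
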