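import Pool.Agent.TH216.ID.Cr2
import Pool.Agent.TH216.MF.MotL

set_option autoImplicit false

/-! The criterion with the directions in `Y`, in terms of the rays of the normal fan. -/

namespace Pool.Agent.TH216.ID

open MvPolynomial
open Pool.Agent.W426.SM (gord IsRay face)
open Pool.Agent.W803.SM (gord_le exists_gord)
open Pool.Agent.W425.BF (B1 BD)
open Pool.Agent.W425.SV (NP)
open Pool.Agent.W425.GN
open Pool.Agent.TH216.MF

variable {r N : ℕ}

/-- **The condition, in terms of rays.** -/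
theorem hypSY_of (hr : 0 < r) (v : Fin r → Fin N → ℕ) (Y : Finset (Fin N)) (σ : ℝ)
    (h : ∀ j1 : Fin r, (∃ i, ∀ a : Fin N → ℕ, IsRay v a → 0 < gord v a → face v a j1 →
        ((∑ i, a i : ℕ) : ℝ) / gord v a = σ → SimR v a ∨ B1 v i a) ∨
      ∀ a : Fin N → ℕ, IsRay v a → 0 < gord v a → face v a j1 →
        ((∑ i, a i : ℕ) : ℝ) / gord v a = σ → SimR v a ∨ ∃ i ∈ Y, B1 v i a) : HypSY v Y σ := by
  classical
  intro A Z hne hconst hprem
  -- rays of the faces
  have hray : ∀ (A' : Finset (Fin N)) (Z' : Finset (Fin r)), A' ⊆ A → Z' ⊆ Z →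
      (Pt v A' Z').Nonempty → ∃ (a : Fin N → ℚ) (b : Fin N → ℕ), a ∈ Pt v A' Z' ∧
        (∀ i, b i = 0 ↔ a i = 0) ∧ IsRay v b ∧ 0 < gord v b ∧
        (∀ j, face v b j ↔ ∑ i, a i * (v j i : ℚ) = 1) ∧
        ((∑ i, b i : ℕ) : ℝ) / gord v b = σ := by
    intro A' Z' hA' hZ' hne'
    obtain ⟨a, b, h1, h2, h3, h4, h5, h6⟩ := ray_of_vertex hr v A' Z' hne'
    refine ⟨a, b, h1, h2, h3, h4, h5, ?_⟩
    rw [← hconst a (Pt.mono hA' hZ' h1), ← h6]
    push_cast
    rfl
  obtain ⟨a0, b0, ha0, hb0, hr0, hg0, hf0, hs0⟩ := hray A Z (Finset.Subset.refl _)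
    (Finset.Subset.refl _) hne
  -- a vertex outside `Z`
  obtain ⟨i1, hi1⟩ : ∃ i, i ∈ A := by
    by_contra hcon
    push Not at hcon
    have h1 := ha0.2.2.1 ⟨0, hr⟩
    have h2 : ∑ i, a0 i * (v ⟨0, hr⟩ i : ℚ) = 0 := Finset.sum_eq_zero fun i _ => by
      rw [ha0.2.1 i (hcon i), zero_mul]
    rw [h2] at h1
    exact absurd h1 (by norm_num)
  obtain ⟨j1, hj1, -⟩ := hprem i1 hi1
  have hforced : ∀ (a : Fin N → ℚ) (b : Fin N → ℕ), a ∈ Pt v A Z → (∀ i, b i = 0 ↔ a i = 0) →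
      (∀ j, face v b j ↔ ∑ i, a i * (v j i : ℚ) = 1) → SimR v b → Forced v A Z := by
    intro a b ha hb hf hsim w hw1 hw2
    refine hsim w (fun j hj => ?_) (fun i hi => ?_)
    · apply hw2
      by_contra hjZ
      exact hj ((hf j).2 (ha.2.2.2 j hjZ))
    · apply hw1
      by_contra hiA
      exact hi ((hb i).2 (ha.2.1 i hiA))
  by_cases hsim : Forced v A Z
  · exact Or.inl hsim
  right
  rcases h j1 with ⟨i, hi⟩ | hi
  swap
  · right
    intro A' Z' hA' hZ' hne'
    obtain ⟨a, b, h1, h2, h3, h4, h5, h6⟩ := hray A' Z' hA' hZ' hne'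
    have hm := Pt.mono hA' hZ' h1
    rcases hi b h3 h4 ((h5 j1).2 (hm.2.2.2 j1 hj1)) h6 with h7 | ⟨i, hiY, h7, j0, h8, h9, h10⟩
    · exact absurd (hforced a b hm h2 h5 h7) hsim
    · refine ⟨a, h1, i, hiY, fun h => h7 ((h2 i).2 h), fun j j' hj hj' hji hj'i => ?_⟩
      have e : ∀ j, ∑ x, a x * (v j x : ℚ) = 1 → v j i ≠ 0 → j = j0 := by
        intro j hj hji
        by_contra hne
        exact hji (h10 j ((h5 j).2 hj) hne)
      rw [e j hj hji, e j' hj' hj'i]
  left
  have hB : ∀ (A' : Finset (Fin N)) (Z' : Finset (Fin r)), A' ⊆ A → Z' ⊆ Z →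
      (Pt v A' Z').Nonempty → ∃ (a : Fin N → ℚ) (b : Fin N → ℕ), a ∈ Pt v A' Z' ∧
        (∀ i, b i = 0 ↔ a i = 0) ∧ (∀ j, face v b j ↔ ∑ i, a i * (v j i : ℚ) = 1) ∧
        B1 v i b := by
    intro A' Z' hA' hZ' hne'
    obtain ⟨a, b, h1, h2, h3, h4, h5, h6⟩ := hray A' Z' hA' hZ' hne'
    refine ⟨a, b, h1, h2, h5, ?_⟩
    have hm := Pt.mono hA' hZ' h1
    rcases hi b h3 h4 ((h5 j1).2 (hm.2.2.2 j1 hj1)) h6 with h7 | h7
    · exact absurd (hforced a b hm h2 h5 h7) hsim
    · exact h7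
  obtain ⟨a1, b1, ha1, hb1, hf1, hB1⟩ := hB A Z (Finset.Subset.refl _)
    (Finset.Subset.refl _) hne
  obtain ⟨hb1i, j0, hj0f, hj0, hj0u⟩ := hB1
  have hiA : i ∈ A := by
    by_contra hiA
    exact hb1i ((hb1 i).2 (ha1.2.1 i hiA))
  refine ⟨i, hiA, j0, hj0, fun a ha hai => ?_, fun j hj hji a ha haj => ?_⟩
  · obtain ⟨a2, b2, ha2, hb2, hf2, hB2⟩ := hB (A.erase i) Z (Finset.erase_subset _ _)
      (Finset.Subset.refl _) ⟨a, ha.1, fun i' hi' => by
        by_cases h1 : i' = i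
        · rw [h1]; exact hai
        · exact ha.2.1 i' fun h2 => hi' (Finset.mem_erase.2 ⟨h1, h2⟩), ha.2.2.1, ha.2.2.2⟩
    exact hB2.1 ((hb2 i).2 (ha2.2.1 i (Finset.notMem_erase i A)))
  · obtain ⟨a2, b2, ha2, hb2, hf2, hB2⟩ := hB A (Z.erase j) (Finset.Subset.refl _)
      (Finset.erase_subset _ _) ⟨a, ha.1, ha.2.1, ha.2.2.1, fun j' hj' => by
        by_cases h1 : j' = j
        · rw [h1]; exact haj
        · exact ha.2.2.2 j' fun h2 => hj' (Finset.mem_erase.2 ⟨h1, h2⟩)⟩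
    obtain ⟨hb2i, j0', hj0f', hj0', hj0u'⟩ := hB2
    obtain ⟨j2, hj2Z, hj2⟩ := hprem i hiA
    have h3 : j2 = j0 := by
      by_contra h4
      have := hj0u j2 ((hf1 j2).2 (ha1.2.2.2 j2 hj2Z)) h4
      omega
    have h4 : j2 = j0' := by
      by_contra h4
      have := hj0u' j2 ((hf2 j2).2 (ha2.2.2.2 j2 fun h5 => hj2Z (Finset.mem_of_mem_erase h5))) h4
      omega
    have h5 : j = j0' := by
      by_contra h6
      have := hj0u' j ((hf2 j).2 (ha2.2.2.2 j (Finset.notMem_erase j Z))) h6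
      omega
    exact hj (h5.trans (h4.symm.trans h3))


/-- At every `v j1` the facets at the level `σ` which contain `v j1` are simplices or B1-facets in
a common direction, or they are simplices or B1-facets in directions in `Y`. -/
def LocY {R : Type} [CommRing R] (v : Fin r → Fin N → ℕ) (Y : Finset (Fin N))
    (h : MvPolynomial (Fin N) R) (σ : ℚ) : Prop :=
  ∀ j1 : Fin r, (∃ i, ∀ a : Fin N → ℕ, IsRay v a → 0 < gord v a → face v a j1 →
    ((∑ x, a x : ℕ) : ℚ) / gord v a = σ → SimH v h a ∨ BD v h i a) ∨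
    ∀ a : Fin N → ℕ, IsRay v a → 0 < gord v a → face v a j1 →
    ((∑ x, a x : ℕ) : ℚ) / gord v a = σ → SimH v h a ∨ ∃ i ∈ Y, BD v h i a

section

variable {R : Type} [CommRing R] (v : Fin r → Fin N → ℕ) (h : MvPolynomial (Fin N) R)

lemma knp (hh : ∀ w ∈ h.support, NP v w) (l : Fin (kept v h).card) :
    NP v (Finsupp.equivFunOnFinite.symm (ke v h l)) := by
  obtain ⟨w, hw, hwe, -⟩ := ke_mem v h l
  have : Finsupp.equivFunOnFinite.symm (ke v h l) = w := by
    ext i
    exact hwe i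
  rw [this]
  exact hh w hw

lemma face_app (hr : 0 < r) (hh : ∀ w ∈ h.support, NP v w) (a : Fin N → ℕ) (j : Fin r) :
    face (Fin.append v (ke v h)) a (Fin.castAdd _ j) ↔ face v a j := by
  have hray := pRAY v (ke v h) hr (knp v h hh)
  unfold face
  rw [(hray a).1]
  simp only [Fin.append_left]

lemma simR_app (hr : 0 < r) (hh : ∀ w ∈ h.support, NP v w) (a : Fin N → ℕ) (hs : SimH v h a) :
    SimR (Fin.append v (ke v h)) a := by
  have hga := (pRAY v (ke v h) hr (knp v h hh) a).1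
  obtain ⟨h1, h2⟩ := hs
  have hk : ∀ l, ¬ face (Fin.append v (ke v h)) a (Fin.natAdd r l) := by
    intro l hl
    obtain ⟨w, hw, hwe, hwn⟩ := ke_mem v h l
    apply hwn
    have h3 : ke v h l = fun i => w i := funext hwe
    rw [h3]
    apply h2 w hw
    unfold face at hl
    rw [hga] at hl
    simp only [Fin.append_right] at hl
    rw [← hl]
    exact Finset.sum_congr rfl fun x _ => by rw [hwe]
  intro w hw1 hw2
  have h4 := h1 (fun j => w (Fin.castAdd _ j))
    (fun j hj => hw1 _ fun h5 => hj ((face_app v h hr hh a j).1 h5))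
    (fun i hi => by
      have h5 := hw2 i hi
      rw [Fin.sum_univ_add] at h5
      simp only [Fin.append_left, Fin.append_right] at h5
      rw [Finset.sum_eq_zero (s := Finset.univ) (f := fun x => w (Fin.natAdd r x) *
        (ke v h x i : ℚ)) (fun x _ => by rw [hw1 _ (hk x), zero_mul]), add_zero] at h5
      exact h5)
  intro j
  refine Fin.addCases (fun j => h4 j) (fun l => hw1 _ (hk l)) j

lemma b1_app (hr : 0 < r) (hh : ∀ w ∈ h.support, NP v w) (a : Fin N → ℕ) (i : Fin N)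
    (hb : BD v h i a) : B1 (Fin.append v (ke v h)) i a := by
  have hga := (pRAY v (ke v h) hr (knp v h hh) a).1
  obtain ⟨hai, j0, hf0, hv1, hu, hw⟩ := hb
  refine ⟨hai, Fin.castAdd _ j0, (face_app v h hr hh a j0).2 hf0,
    by rw [Fin.append_left]; exact hv1, fun j => ?_⟩
  refine Fin.addCases (fun j => ?_) (fun l => ?_) j
  · intro h7 h8
    rw [Fin.append_left]
    exact hu j ((face_app v h hr hh a j).1 h7) fun h9 => h8 (by rw [h9])
  · intro h7 _
    rw [Fin.append_right]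
    obtain ⟨w, hws, hwe, hwn⟩ := ke_mem v h l
    unfold face at h7
    rw [hga] at h7
    simp only [Fin.append_right] at h7
    rcases hw w hws (by
      rw [← h7]
      exact Finset.sum_congr rfl fun x _ => by rw [hwe]) with h9 | h9
    · rw [hwe]; exact h9
    · exfalso
      apply hwn
      have h10 : ke v h l = v j0 := funext fun i => by rw [hwe, h9]
      rw [h10]
      exact inC_self v _ j0 (Finset.mem_univ _)

/-- a vertex on the smallest face of an exponent -/
lemma vert_app (hr : 0 < r) (hh : ∀ w ∈ h.support, NP v w)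
    (j1' : Fin (r + (kept v h).card)) : ∃ j1 : Fin r, ∀ a : Fin N → ℕ,
      face (Fin.append v (ke v h)) a j1' → face v a j1 := by
  have hray := pRAY v (ke v h) hr (knp v h hh)
  refine Fin.addCases (fun j1 => ?_) (fun l => ?_) j1'
  · exact ⟨j1, fun a ha => (face_app v h hr hh a j1).1 ha⟩
  · obtain ⟨lm, hl, hl1, hlw⟩ := knp v h hh l
    obtain ⟨j1, hj1⟩ : ∃ j, 0 < lm j := by
      by_contra hcon
      push Not at hcon
      have : ∑ j, lm j = 0 := Finset.sum_eq_zero fun j _ => le_antisymm (hcon j) (hl j)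
      rw [this] at hl1
      exact zero_ne_one hl1
    refine ⟨j1, fun a hf => ?_⟩
    unfold face at hf ⊢
    rw [(hray a).1] at hf
    simp only [Fin.append_right] at hf
    by_contra hne
    have h1 : (gord v a : ℝ) < ∑ j, lm j * ((∑ i, a i * v j i : ℕ) : ℝ) := by
      calc (gord v a : ℝ) = ∑ j, lm j * (gord v a : ℝ) := by rw [← Finset.sum_mul, hl1, one_mul]
        _ < _ := by
          refine Finset.sum_lt_sum (fun j _ =>
            mul_le_mul_of_nonneg_left (by exact_mod_cast gord_le v a j) (hl j))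
            ⟨j1, Finset.mem_univ j1, ?_⟩
          refine mul_lt_mul_of_pos_left ?_ hj1
          exact_mod_cast lt_of_le_of_ne (gord_le v a j1) (Ne.symm hne)
    have h2 : ∑ j, lm j * ((∑ i, a i * v j i : ℕ) : ℝ) ≤ ((∑ i, a i * ke v h l i : ℕ) : ℝ) := by
      push_cast
      simp only [Finset.mul_sum]
      rw [Finset.sum_comm]
      refine Finset.sum_le_sum fun i _ => ?_
      have h3 : ∑ j, lm j * ((a i : ℝ) * (v j i : ℝ)) = (a i : ℝ) * ∑ j, lm j * (v j i : ℝ) := by
        rw [Finset.mul_sum]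
        exact Finset.sum_congr rfl fun j _ => by ring
      rw [h3]
      exact mul_le_mul_of_nonneg_left (hlw i) (by positivity)
    rw [hf] at h2
    linarith

/-- from the condition on the facets to the criterion -/
theorem hypSY_of_locY (hr : 0 < r) (Y : Finset (Fin N)) (hh : ∀ w ∈ h.support, NP v w)
    (σ : ℚ) (hL : LocY v Y h σ) : HypSY (Fin.append v (ke v h)) Y (σ : ℝ) := by
  classical
  have hray := pRAY v (ke v h) hr (knp v h hh)
  refine hypSY_of (by omega) _ _ _ fun j1' => ?_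
  obtain ⟨j1, hj1⟩ := vert_app v h hr hh j1'
  have hcast : ∀ a : Fin N → ℕ, IsRay (Fin.append v (ke v h)) a →
      0 < gord (Fin.append v (ke v h)) a → face (Fin.append v (ke v h)) a j1' →
      ((∑ i, a i : ℕ) : ℝ) / gord (Fin.append v (ke v h)) a = (σ : ℝ) →
      IsRay v a ∧ 0 < gord v a ∧ face v a j1 ∧ ((∑ x, a x : ℕ) : ℚ) / gord v a = σ := by
    intro a ha hg hf hs
    obtain ⟨hga, hra⟩ := hray a
    rw [hga] at hg hs
    refine ⟨hra ha, hg, hj1 a hf, ?_⟩
    apply Rat.cast_injective (α := ℝ)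
    push_cast
    push_cast at hs
    exact hs
  rcases hL j1 with ⟨i, hi⟩ | hi
  · refine Or.inl ⟨i, fun a ha hg hf hs => ?_⟩
    obtain ⟨h1, h2, h3, h4⟩ := hcast a ha hg hf hs
    exact (hi a h1 h2 h3 h4).imp (simR_app v h hr hh a) (b1_app v h hr hh a i)
  · refine Or.inr fun a ha hg hf hs => ?_
    obtain ⟨h1, h2, h3, h4⟩ := hcast a ha hg hf hs
    refine (hi a h1 h2 h3 h4).imp (simR_app v h hr hh a) ?_
    rintro ⟨i, hiY, h5⟩
    exact ⟨i, hiY, b1_app v h hr hh a i h5⟩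

end

end Pool.Agent.TH216.ID
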