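import Pool.Agent.TH216.ID.Cr3
import Pool.Agent.TH216.MF.MotM
import Pool.Agent.W749.JI.Final

set_option autoImplicit false

/-! Generic coefficients: the universal roots, with multiplicity two at `-1`. -/

namespace Pool.Agent.TH216.ID

open MvPolynomial Pool.Agent.H628R4.TP Pool.Agent.W425.MM Pool.Agent.W425.GN
open Pool.Agent.W425.ND (spa)
open Pool.Agent.W426.SM (gord IsRay face)
open Pool.Agent.W425.SV (NP RelV Kil1)
open Pool.Agent.W425.SM (sparse)
open Pool.Agent.TH216.MF (RelG KilU kept ke relG_of_relV relG_ext)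
open Pool.Agent.TH216.MC (ke_np)
open Pool.Agent.W749.JI (IsLocalBIdeal gpol sBtoG)

variable {r N : ℕ}

/-- `α` is a root of `b_I` for very general coefficients, in terms of `(s + 1) b_I` -/
def PI {F : Type} [Field F] (v : Fin r → Fin N → ℕ) (h : MvPolynomial (Fin N) F) (α : ℚ) : Prop :=
  HPL v h α (if α = -1 then 1 else 0)

lemma xp1_ne : (Polynomial.X + 1 : Polynomial ℂ) ≠ 0 := by
  intro h2
  have h3 := congrArg (Polynomial.eval 0) h2
  simp at h3

lemma xp1_eq : (Polynomial.X + 1 : Polynomial ℂ) = Polynomial.X - Polynomial.C (-1) := by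
  rw [map_neg, map_one, sub_neg_eq_add]

lemma eval_ne_of_mult' {p : Polynomial ℂ} (hp : p ≠ 0) (α : ℚ)
    (h : ((Polynomial.X + 1) * p).rootMultiplicity (α : ℂ) ≤ if α = -1 then 1 else 0) :
    p.eval (α : ℂ) ≠ 0 := by
  intro h0
  have h1 : (Polynomial.X + 1) * p ≠ 0 := mul_ne_zero xp1_ne hp
  have h2 : 0 < p.rootMultiplicity (α : ℂ) := (Polynomial.rootMultiplicity_pos hp).2 h0
  rw [Polynomial.rootMultiplicity_mul h1] at h
  split_ifs at h with h3
  · have h4 : 0 < (Polynomial.X + 1 : Polynomial ℂ).rootMultiplicity (α : ℂ) := by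
      rw [Polynomial.rootMultiplicity_pos xp1_ne]
      show (Polynomial.X + 1 : Polynomial ℂ).eval (α : ℂ) = 0
      rw [h3]
      simp
    omega
  · omega

/-- the relation at `α` -/
theorem relI [NeZero r] {F : Type} [Field F] (v : Fin r → Fin N → ℕ)
    (hv : Function.Injective v) (hv0 : ∀ j, v j ≠ 0) (h : MvPolynomial (Fin N) F)
    (hh : ∀ w ∈ h.support, NP v w) (α : ℚ) (hn : ¬ PI v h α) :
    ∃ (θ : Fin (r + (kept v h).card) → ℤ) (p : Polynomial ℂ),
      RelG (Fin.append v (ke v h)) (Kil1 (Fin.append v (ke v h)))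
        (KilU (Fin.append v (ke v h)) θ) p ∧ p.eval (α : ℂ) ≠ 0 := by
  unfold PI HPL at hn
  push Not at hn
  obtain ⟨F', _, _, a, h', ha, hs, b', hb', hnd⟩ := hn
  have hb0 : b' ≠ 0 := fun h => hnd (h ▸ dvd_zero _)
  have hJ := (feqL_iff _ b').2 hb'
  obtain ⟨θ, hθ⟩ := Pool.Agent.W422.GC.exists_heights r
  obtain ⟨p, q, hbp, hp⟩ := Pool.Agent.W422.GC.rel_of_unit True _ unit_cond v a hv hv0 ha h'
    (fun w hw => hh w (hs w hw)) θ hθ b' hb0 hJ
  have hp0 : p ≠ 0 := by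
    rintro rfl
    apply hb0
    rw [hbp]
    simp
  obtain ⟨θ1, h1⟩ := relG_of_relV v θ True p hp
  obtain ⟨θ', hθ'⟩ := relG_ext v (ke v h) (ke_np v h hh) θ1 p h1
  refine ⟨θ', p, hθ', eval_ne_of_mult' hp0 _ ?_⟩
  have h1 : (Polynomial.X + 1) * p ∣ b' := ⟨q, hbp⟩
  have h2 := Polynomial.rootMultiplicity_le_rootMultiplicity_of_dvd hb0 h1 (α : ℂ)
  refine h2.trans ?_
  by_contra hcon
  push Not at hcon
  exact hnd ((Polynomial.le_rootMultiplicity_iff hb0).1 hcon)

/-- the levels of simplices which are not B1 -/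
theorem pi_nonB [NeZero r] {F : Type} [Field F] (v : Fin r → Fin N → ℕ)
    (hv : Function.Injective v) (hv0 : ∀ j, v j ≠ 0) (h : MvPolynomial (Fin N) F)
    (hh : ∀ w ∈ h.support, NP v w)
    (u : Fin N → ℕ) (hgu : 0 < gord v u) (hu : NonB v True u) :
    PI v h (-(((∑ i, u i : ℕ) : ℚ) / gord v u)) := by
  intro F' _ _ a h' ha hs b hb
  have hh' : ∀ w ∈ h'.support, NP v w := fun w hw => hh w (hs w hw)
  by_cases hb0 : b = 0
  · rw [hb0]
    exact dvd_zero _
  have hJ := (feqL_iff _ b).2 hb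
  obtain ⟨θ, hθ, hR⟩ := a5s Pool.Agent.W688.MM.a1
    (a4 Pool.Agent.W318.MM.a2 Pool.Agent.W554.MM.taskA3) v True u hgu hu
  obtain ⟨p, q, hbp, hp⟩ := Pool.Agent.W422.GC.rel_of_unit True _ unit_cond v a hv hv0 ha h' hh'
    θ hθ b hb0 hJ
  have h1 := hR p hp
  set α : ℚ := -(((∑ i, u i : ℕ) : ℚ) / gord v u) with hα
  have hαC : (α : ℂ) = -(((∑ i, u i : ℕ) : ℂ) / gord v u) := by
    rw [hα]
    push_cast
    ring
  have h2 : (Polynomial.X - Polynomial.C (α : ℂ)) ∣ p := by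
    rw [Polynomial.dvd_iff_isRoot]
    show p.eval (α : ℂ) = 0
    rw [hαC]
    exact h1
  have h3 : (Polynomial.X - Polynomial.C (α : ℂ)) ^ ((if α = -1 then 1 else 0) + 1) ∣
      (Polynomial.X + 1) * p := by
    split_ifs with h4
    · rw [h4] at h2 ⊢
      have e : ((-1 : ℚ) : ℂ) = -1 := by push_cast; rfl
      rw [e, ← xp1_eq] at h2 ⊢
      rw [pow_two]
      exact mul_dvd_mul_left _ h2
    · rw [zero_add, pow_one]
      exact h2.mul_left _
  rw [hbp]
  exact h3.mul_right _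

/-- the roots, for generic coefficients -/
theorem rootsI {F : Type} [Field F] [Algebra F ℂ] (hr : 0 < r) (v : Fin r → Fin N → ℕ)
    (hv : Function.Injective v) (h : MvPolynomial (Fin N) F) :
    ∃ g : MvPolynomial (Fin r) F, g ≠ 0 ∧ ∀ c : Fin r → ℂ, aeval c g ≠ 0 →
      ∀ b : Polynomial ℂ, FEqL (spa v c + MvPolynomial.map (algebraMap F ℂ) h)
        ((Polynomial.X + 1) * b) → ∀ α : ℚ, PI v h α → b.eval (α : ℂ) = 0 := by
  have hne : NeZero r := ⟨by omega⟩
  obtain ⟨g1, hg1, hgb⟩ := univL pF4 pR1 pG2 hr v hv h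
  refine ⟨g1, hg1, fun c hc b hb α hα => ?_⟩
  have h1 := hgb c hc _ hb α _ hα
  split_ifs at h1 with h2
  · have e : (α : ℂ) = -1 := by
      rw [h2]
      push_cast
      rfl
    rw [e, ← xp1_eq, pow_two] at h1
    have h3 := (mul_dvd_mul_iff_left xp1_ne).1 h1
    rw [xp1_eq, Polynomial.dvd_iff_isRoot] at h3
    rw [e]
    exact h3
  · rw [zero_add, pow_one, Polynomial.dvd_iff_isRoot] at h1
    have h3 : (α : ℂ) + 1 ≠ 0 := by
      intro h4
      apply h2
      have h5 : ((α + 1 : ℚ) : ℂ) = ((0 : ℚ) : ℂ) := by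
        push_cast
        exact h4
      have h6 : α + 1 = 0 := by exact_mod_cast h5
      linarith
    have h4 : ((α : ℂ) + 1) * b.eval (α : ℂ) = 0 := by
      have h5 : ((Polynomial.X + 1) * b).eval (α : ℂ) = 0 := h1
      rw [Polynomial.eval_mul] at h5
      simpa using h5
    exact (mul_eq_zero.1 h4).resolve_left h3

/-- the functional equation of `∑ y_i f_i` from the one of the ideal -/
theorem feqL_ideal {n r : ℕ} (f : Fin r → MvPolynomial (Fin n) ℂ) (b : Polynomial ℂ)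
    (hb : IsLocalBIdeal f b) : FEqL (gpol f) ((Polynomial.X + 1) * b) := by
  obtain ⟨a, P, ha, hP⟩ := sBtoG f b hb
  refine (feqL_iff _ _).1 ((Pool.Agent.W591.GC.J_iff _ _ _).2
    ⟨a, Pool.Agent.W591.GC.mem_S1.2 ha, P, fun s => ?_⟩)
  rw [← hP s]
  ring

end Pool.Agent.TH216.ID
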