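import Pool.Agent.W806.JIJetI
import Pool.Agent.W973.JILin
import Pool.Agent.W375.MG.Fin

set_option autoImplicit false

/-! The jets of an ideal and the jets of `∑ y_i f_i`. -/

namespace Pool.Agent.TH216.ID

open MvPolynomial
open Pool.Agent.W428.MOT Pool.Agent.W749.JI
open Pool.Agent.W375.MG (zetaG JetG)
open Pool.Agent.W375.MT (coeff_aeval_congr chi_biUnion)
open Pool.Agent.W806.JIJetI

variable {K : Type} [Field K] {n r N : ℕ}

/-- `∑ y_i f_i` -/
noncomputable def gp (f : Fin r → MvPolynomial (Fin n) K) : MvPolynomial (Fin (n + r)) K :=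
  ∑ i, X (Fin.natAdd n i) * rename (Fin.castAdd r) (f i)

/-- the points `(0, y)` -/
def W0 (K : Type) [Field K] (n r : ℕ) : Set (Pt K (Fin (n + r))) :=
  {z | ∀ v : Fin n, z (Fin.castAdd r v) = 0}

/-- the `x`-coordinates of the jets -/
def px (z : Pt K (Fin (n + r) × Fin (N + 1))) : Pt K (Fin n × Fin (N + 1)) :=
  fun p => z (Fin.castAdd r p.1, p.2)

lemma aeval_gp (z : Pt K (Fin (n + r) × Fin (N + 1))) (f : Fin r → MvPolynomial (Fin n) K) :
    aeval (arc z) (gp f) = ∑ i, arc z (Fin.natAdd n i) * aeval (arc (px z)) (f i) := by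
  unfold gp
  rw [map_sum]
  refine Finset.sum_congr rfl fun i _ => ?_
  rw [map_mul, aeval_X, aeval_rename]
  rfl

/-- the jets of level `N` on which the ideal has order `q` -/
def JJ (f : Fin r → MvPolynomial (Fin n) K) (N q : ℕ) : Set (Pt K (Fin n × Fin (N + 1))) :=
  {z | (∀ v, z (v, 0) = 0) ∧ (∀ i, ∀ j < q, PowerSeries.coeff j (aeval (arc z) (f i)) = 0) ∧
    ∃ i, PowerSeries.coeff q (aeval (arc z) (f i)) ≠ 0}

lemma constr_JJ (f : Fin r → MvPolynomial (Fin n) K) (N q : ℕ) : Constr (JJ f N q) :=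
  Constr.and (Constr.all fun _ => Constr.eqz (IsPF.coord _)) (Constr.and
    (Constr.all fun i => Constr.allLt _ fun j _ =>
      Constr.eqz (IsPA.aeval (fun i z => arc z i) (fun i => isPA_arc i) (f i) j))
    (constr_ex f N q))

lemma chi_JJ (h1 : S_Free) {R : Type} [CommRing R] (M : Meas K R)
    (f : Fin r → MvPolynomial (Fin n) K) (N q : ℕ) (hq : q ≤ N) :
    M.χ _ (JJ f N q) = M.χ _ (JetI f q) * M.L ^ (n * (N - q)) := by
  have e1 : M.χ _ (GG f N q) = M.χ _ (JJ f N q) + M.χ _ (GG f N (q + 1)) := by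
    have h : GG f N q = JJ f N q ∪ GG f N (q + 1) := by
      ext z
      constructor
      · rintro ⟨h1, h2⟩
        by_cases h3 : ∃ i, PowerSeries.coeff q (aeval (arc z) (f i)) ≠ 0
        · exact Or.inl ⟨h1, h2, h3⟩
        · right
          push Not at h3
          refine ⟨h1, fun i j hj => ?_⟩
          rcases Nat.lt_succ_iff_lt_or_eq.1 hj with h4 | h4
          · exact h2 i j h4
          · rw [h4]
            exact h3 i
      · rintro (⟨h1, h2, _⟩ | ⟨h1, h2⟩)
        · exact ⟨h1, h2⟩
        · exact ⟨h1, fun i j hj => h2 i j (by omega)⟩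
    rw [h]
    refine M.add _ _ (constr_JJ f N q) (constr_GG f N (q + 1)) ?_
    rw [Set.disjoint_left]
    rintro z ⟨_, _, i, h3⟩ ⟨_, h4⟩
    exact h3 (h4 i q (Nat.lt_succ_self q))
  have e2 := GG_card h1 M f q N q hq (by omega)
  have e3 := GG_card h1 M f q N (q + 1) hq le_rfl
  have e4 := jet_add M f q
  rw [e4] at e2
  linear_combination e2 - e1 - e3

/-- the coordinates `y` -/
def Cy (n r N : ℕ) : Finset (Fin (n + r) × Fin (N + 1)) :=
  Finset.univ.map ⟨fun p : Fin r × Fin (N + 1) => (Fin.natAdd n p.1, p.2), fun a b h => by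
    have h1 := congrArg Prod.fst h
    have h2 := congrArg Prod.snd h
    simp only [Fin.natAdd_inj] at h1
    exact Prod.ext h1 h2⟩

lemma mem_Cy (p : Fin (n + r) × Fin (N + 1)) :
    p ∈ Cy n r N ↔ ∃ i, p.1 = Fin.natAdd n i := by
  unfold Cy
  simp only [Finset.mem_map, Finset.mem_univ, true_and, Prod.exists]
  constructor
  · rintro ⟨i, j, rfl⟩
    exact ⟨i, rfl⟩
  · rintro ⟨i, hi⟩
    exact ⟨i, p.2, Prod.ext hi.symm rfl⟩

lemma card_Cy : (Cy n r N).card = r * (N + 1) := by
  unfold Cy
  rw [Finset.card_map, Finset.card_univ, Fintype.card_prod, Fintype.card_fin, Fintype.card_fin]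

lemma castAdd_notMem (v : Fin n) (j : Fin (N + 1)) :
    ((Fin.castAdd r v, j) : Fin (n + r) × Fin (N + 1)) ∉ Cy n r N := by
  rw [mem_Cy]
  rintro ⟨i, hi⟩
  have := congrArg Fin.val hi
  simp only [Fin.val_castAdd, Fin.val_natAdd] at this
  have := v.2
  omega

lemma sum_Cy {A : Type} [AddCommMonoid A] (F : Fin (n + r) × Fin (N + 1) → A) :
    ∑ p ∈ Cy n r N, F p = ∑ i : Fin r, ∑ j : Fin (N + 1), F (Fin.natAdd n i, j) := by
  unfold Cy
  rw [Finset.sum_map, ← Finset.univ_product_univ, Finset.sum_product]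
  rfl

/-- the preimage -/
def Sq (f : Fin r → MvPolynomial (Fin n) K) (N q : ℕ) :
    Set (Pt K (Fin (n + r) × Fin (N + 1))) := {z | px z ∈ JJ f N q}

lemma constr_Sq (f : Fin r → MvPolynomial (Fin n) K) (N q : ℕ) : Constr (Sq f N q) :=
  (constr_JJ f N q).preimage px fun _ => IsPF.coord _

lemma px_congr (z w : Pt K (Fin (n + r) × Fin (N + 1)))
    (h : ∀ p, p ∉ Cy n r N → w p = z p) : px w = px z := by
  funext p
  exact h _ (castAdd_notMem _ _)

/-- extension by zero -/
noncomputable def exy (z : Pt K (Fin n × Fin (N + 1))) : Pt K (Fin (n + r) × Fin (N + 1)) :=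
  fun p => Fin.addCases (fun v => z (v, p.2)) (fun _ => 0) p.1

lemma px_exy (z : Pt K (Fin n × Fin (N + 1))) : px (exy (r := r) z) = z := by
  funext p
  unfold px exy
  simp

lemma chi_Sq (h1 : S_Free) {R : Type} [CommRing R] (M : Meas K R)
    (f : Fin r → MvPolynomial (Fin n) K) (N q : ℕ) :
    M.χ _ (Sq f N q) = M.χ _ (JJ f N q) * M.L ^ (r * (N + 1)) := by
  classical
  have e1 := h1 M (Sq f N q) ∅ (Cy n r N) (fun _ => 0) (Finset.disjoint_empty_left _)
    (constr_Sq f N q) (fun z w h hz => by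
      have h2 := px_congr z w fun p hp => h p (by simp) hp
      show px w ∈ JJ f N q
      rw [h2]
      exact hz)
  simp only [Finset.notMem_empty, false_implies, implies_true, Set.ofPred_true, Set.inter_univ,
    Finset.empty_union, map_zero, Finset.card_empty, pow_zero, mul_one] at e1
  rw [e1, card_Cy]
  congr 1
  refine M.iso _ _ ((constr_Sq f N q).inter (Constr.ballFinset _ fun p _ =>
    Constr.eqz (IsPF.coord _))) (constr_JJ f N q) px exy
    (regularOn_poly (fun p => IsPF.coord _) _) (regularOn_poly (fun p => ?_) _) ?_ ?_ ?_ ?_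
  · unfold exy
    obtain ⟨p1, p2⟩ := p
    refine Fin.addCases (fun v => ?_) (fun i => ?_) p1
    · simp only [Fin.addCases_left]
      exact IsPF.coord _
    · simp only [Fin.addCases_right]
      exact IsPF.zero
  · rintro z ⟨h2, -⟩
    exact h2
  · intro z hz
    refine ⟨?_, ?_⟩
    · show px (exy (r := r) z) ∈ JJ f N q
      rw [px_exy]
      exact hz
    · intro p hp
      obtain ⟨i, hi⟩ := (mem_Cy p).1 hp
      unfold exy
      rw [hi]
      simp
  · rintro z ⟨-, h3⟩
    funext p
    obtain ⟨p1, p2⟩ := p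
    unfold exy px
    refine Fin.addCases (fun v => ?_) (fun i => ?_) p1
    · simp
    · simp only [Fin.addCases_right]
      exact (h3 _ ((mem_Cy _).2 ⟨i, rfl⟩)).symm
  · rintro z -
    exact px_exy z

/-- the coefficients of the linear conditions -/
noncomputable def Dl (f : Fin r → MvPolynomial (Fin n) K) (N q : ℕ) (p : Fin (N - q + 1))
    (v : Fin (n + r) × Fin (N + 1)) (z : Pt K (Fin (n + r) × Fin (N + 1))) :
    AlgebraicClosure K :=
  Fin.addCases (fun _ => 0) (fun i => if (v.2 : ℕ) ≤ q + p then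
    PowerSeries.coeff (q + p - v.2) (aeval (arc (px z)) (f i)) else 0) v.1

/-- the coefficients of `∑ y_i f_i` -/
lemma coeff_gp (f : Fin r → MvPolynomial (Fin n) K) (N q : ℕ) (hq : q ≤ N) (p : Fin (N - q + 1))
    (z : Pt K (Fin (n + r) × Fin (N + 1))) :
    PowerSeries.coeff (q + p) (aeval (arc z) (gp f)) = ∑ v ∈ Cy n r N, Dl f N q p v z * z v := by
  have hp : q + (p : ℕ) ≤ N := by
    have := p.2
    omega
  rw [aeval_gp, map_sum, sum_Cy]
  refine Finset.sum_congr rfl fun i _ => ?_
  rw [PowerSeries.coeff_mul, Finset.Nat.sum_antidiagonal_eq_sum_range_succ_mk]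
  unfold Dl
  simp only [Fin.addCases_right]
  have h1 : ∑ j : Fin (N + 1), (if (j : ℕ) ≤ q + p then
      PowerSeries.coeff (q + p - j) (aeval (arc (px z)) (f i)) else 0) * z (Fin.natAdd n i, j) =
      ∑ j ∈ Finset.range (N + 1), if h : j < N + 1 then ((if j ≤ q + p then
      PowerSeries.coeff (q + p - j) (aeval (arc (px z)) (f i)) else 0) *
        z (Fin.natAdd n i, ⟨j, h⟩)) else 0 := by
    rw [Finset.sum_range]
    refine Finset.sum_congr rfl fun j _ => ?_
    rw [dif_pos j.2]
  rw [h1]
  symm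
  rw [← Finset.sum_subset (Finset.range_subset_range.2 (show (q + (p : ℕ)).succ ≤ N + 1 by omega))]
  · refine Finset.sum_congr rfl fun j hj => ?_
    rw [Finset.mem_range] at hj
    rw [dif_pos (by omega), if_pos (by omega), arc, PowerSeries.coeff_mk, dif_pos (by omega),
      mul_comm]
  · intro j hj hj'
    rw [Finset.mem_range] at hj hj'
    rw [dif_pos hj, if_neg (by omega), zero_mul]

lemma isPF_Dl (f : Fin r → MvPolynomial (Fin n) K) (N q : ℕ) (p : Fin (N - q + 1))
    (v : Fin (n + r) × Fin (N + 1)) : IsPF (Dl f N q p v) := by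
  obtain ⟨v1, v2⟩ := v
  unfold Dl
  refine Fin.addCases (fun v => ?_) (fun i => ?_) v1
  · simp only [Fin.addCases_left]
    exact IsPF.zero
  · simp only [Fin.addCases_right]
    split_ifs
    · exact ((IsPA.aeval (fun i z => arc z i) (fun i => isPA_arc i) (f i) _)).comp px
        fun _ => IsPF.coord _
    · exact IsPF.zero

/-- the number of the `y` -/
lemma chi_cond (hLin : S_Lin) {R : Type} [CommRing R] (M : Meas K R)
    (f : Fin r → MvPolynomial (Fin n) K) (N q : ℕ) (hq : q ≤ N) :
    M.χ _ (JetG (gp f) (W0 K n r) {1} N ∩ Sq f N q) * M.L ^ (N - q + 1) =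
      M.χ _ (Sq f N q) := by
  classical
  have hh : ∀ p : Fin (N - q + 1), IsPF (fun _ : Pt K (Fin (n + r) × Fin (N + 1)) =>
      -(if q + (p : ℕ) = N then (1 : AlgebraicClosure K) else 0)) := by
    intro p
    split_ifs
    · exact IsPF.one.neg
    · exact IsPF.zero.neg
  rw [← hLin M (Cy n r N) (N - q + 1) (Sq f N q) (Dl f N q)
    (fun p _ => -(if q + (p : ℕ) = N then 1 else 0)) (constr_Sq f N q)
    (fun p v => isPF_Dl f N q p v) hh ?_ ?_]
  · congr 2
    ext z
    simp only [Set.mem_inter_iff, Set.mem_ofPred_eq]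
    have h0 : ∀ p : Fin (N - q + 1), (∑ v ∈ Cy n r N, Dl f N q p v z * z v +
        -(if q + (p : ℕ) = N then (1 : AlgebraicClosure K) else 0) = 0) ↔
        PowerSeries.coeff (q + p) (aeval (arc z) (gp f)) = if q + (p : ℕ) = N then 1 else 0 := by
      intro p
      rw [← coeff_gp f N q hq p z, add_neg_eq_zero]
    simp only [h0]
    constructor
    · rintro ⟨⟨h1, h2, h3⟩, h4⟩
      refine ⟨h4, fun p => ?_⟩
      split_ifs with h5
      · rw [h5]
        exact h3
      · refine h2 _ ?_
        have := p.2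
        omega
    · rintro ⟨h4, h5⟩
      refine ⟨⟨?_, ?_, ?_⟩, h4⟩
      · intro v
        exact h4.1 v
      · intro j hj
        by_cases hjq : j < q
        · rw [aeval_gp, map_sum]
          refine Finset.sum_eq_zero fun i _ => ?_
          rw [PowerSeries.coeff_mul]
          refine Finset.sum_eq_zero fun ab hab => ?_
          have hab' := Finset.HasAntidiagonal.mem_antidiagonal.1 hab
          rw [h4.2.1 i ab.2 (by omega), mul_zero]
        · have h6 := h5 ⟨j - q, by omega⟩
          have h7 : q + (j - q) = j := by omega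
          simp only [h7] at h6
          rw [h6, if_neg (by omega)]
      · have h6 := h5 ⟨N - q, by omega⟩
        have h7 : q + (N - q) = N := by omega
        simp only [h7] at h6
        rw [h6]
        simp
  · intro z w h
    have h2 := px_congr z w h
    refine ⟨fun hz => ?_, fun p v => ?_, fun p => rfl⟩
    · show px w ∈ JJ f N q
      rw [h2]
      exact hz
    · unfold Dl
      rw [h2]
  · rintro z ⟨-, h2, i0, h3⟩ l hl
    have key : ∀ d : ℕ, ∀ p : Fin (N - q + 1), N - q - p = d → l p = 0 := by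
      intro d
      induction d using Nat.strong_induction_on with
      | _ d ih =>
        intro p hp
        have h4 := hl (Fin.natAdd n i0, ⟨p, by have := p.2; omega⟩) ((mem_Cy _).2 ⟨i0, rfl⟩)
        rw [Finset.sum_eq_single p] at h4
        · unfold Dl at h4
          simp only [Fin.addCases_right] at h4
          rw [if_pos (by omega), Nat.add_sub_cancel] at h4
          exact (mul_eq_zero.1 h4).resolve_right h3
        · intro p' _ hne
          rcases lt_or_gt_of_ne (fun h => hne (Fin.ext h) : (p' : ℕ) ≠ p) with h5 | h5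
          · unfold Dl
            simp only [Fin.addCases_right]
            split_ifs with h6
            · rw [h2 i0 _ (by omega), mul_zero]
            · rw [mul_zero]
          · rw [ih (N - q - p') (by have := p'.2; omega) p' rfl, zero_mul]
        · intro h
          exact absurd (Finset.mem_univ _) h
    intro p
    exact key _ p rfl

/-- **The jets of `∑ y_i f_i`.** -/
theorem chi_jetG (h1 : S_Free) (hLin : S_Lin) {R : Type} [CommRing R] (M : Meas K R)
    (f : Fin r → MvPolynomial (Fin n) K) (Y : R) (hY : M.L * Y = 1) (N : ℕ) :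
    M.χ _ (JetG (gp f) (W0 K n r) {1} N) * Y ^ ((n + r) * N) =
      M.L ^ r * Y * ∑ q ∈ Finset.range (N + 1), M.χ _ (JetI f q) * Y ^ (n * q) * Y ^ (N - q) := by
  classical
  have hc : Constr (JetG (gp f) (W0 K n r) {1} N) := by
    refine Constr.and ?_ (Constr.and (Constr.allLt _ fun j _ =>
      Constr.eqz (IsPA.aeval (fun i z => arc z i) (fun i => isPA_arc i) (gp f) j)) ?_)
    · exact Constr.all fun v => Constr.eqz (IsPF.coord _)
    · exact Constr.eq (IsPA.aeval (fun i z => arc z i) (fun i => isPA_arc i) (gp f) N) IsPF.one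
  have e1 : JetG (gp f) (W0 K n r) {1} N =
      ⋃ q ∈ Finset.range (N + 1), (JetG (gp f) (W0 K n r) {1} N ∩ Sq f N q) := by
    ext z
    simp only [Set.mem_iUnion, Finset.mem_range, exists_prop]
    constructor
    · intro hz
      have h2 : ∃ q, ∃ i, PowerSeries.coeff q (aeval (arc (px z)) (f i)) ≠ 0 ∧ q ≤ N := by
        by_contra hcon
        push Not at hcon
        have h3 : PowerSeries.coeff N (aeval (arc z) (gp f)) = 0 := by
          rw [aeval_gp, map_sum]
          refine Finset.sum_eq_zero fun i _ => ?_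
          rw [PowerSeries.coeff_mul]
          refine Finset.sum_eq_zero fun ab hab => ?_
          have hab' := Finset.HasAntidiagonal.mem_antidiagonal.1 hab
          have h4 : PowerSeries.coeff ab.2 (aeval (arc (px z)) (f i)) = 0 := by
            by_contra h5
            have := hcon ab.2 i h5
            omega
          rw [h4, mul_zero]
        have h4 := hz.2.2
        rw [h3] at h4
        exact zero_ne_one h4
      classical
      set q := Nat.find h2 with hq
      obtain ⟨i, hi, hqN⟩ := Nat.find_spec h2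
      refine ⟨q, by omega, hz, fun v => hz.1 v, fun i' j hj => ?_, i, hi⟩
      by_contra h5
      exact Nat.find_min h2 hj ⟨i', h5, by omega⟩
    · rintro ⟨q, -, hz, -⟩
      exact hz
  have e2 : M.χ _ (JetG (gp f) (W0 K n r) {1} N) =
      ∑ q ∈ Finset.range (N + 1), M.χ _ (JetG (gp f) (W0 K n r) {1} N ∩ Sq f N q) := by
    conv_lhs => rw [e1]
    refine chi_biUnion M _ _ (fun q _ => hc.inter (constr_Sq f N q)) fun a _ b _ hab => ?_
    rw [Set.disjoint_left]
    rintro z ⟨-, -, h2, i, h3⟩ ⟨-, -, h4, i', h5⟩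
    rcases lt_or_gt_of_ne hab with h6 | h6
    · exact h3 (h4 i a h6)
    · exact h5 (h2 i' b h6)
  have hLY : ∀ a : ℕ, M.L ^ a * Y ^ a = 1 := fun a => by rw [← mul_pow, hY, one_pow]
  rw [e2, Finset.sum_mul, Finset.mul_sum]
  refine Finset.sum_congr rfl fun q hq => ?_
  have hq' : q ≤ N := by
    rw [Finset.mem_range] at hq
    omega
  have e3 := chi_cond hLin M f N q hq'
  rw [chi_Sq h1, chi_JJ h1 M f N q hq'] at e3
  set a := M.χ _ (JetG (gp f) (W0 K n r) {1} N ∩ Sq f N q) with ha
  set b := M.χ _ (JetI f q) with hb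
  have e4 : a = b * M.L ^ (n * (N - q)) * M.L ^ (r * (N + 1)) * Y ^ (N - q + 1) := by
    rw [← e3, mul_assoc, hLY, mul_one]
  have h5 : n * N = n * (N - q) + n * q := by
    rw [← Nat.mul_add]
    congr 1
    omega
  have h6 : (n + r) * N = n * (N - q) + n * q + r * N := by
    rw [← h5]
    ring
  rw [e4, h6, pow_add, pow_add, mul_add, mul_one, pow_add M.L, pow_succ]
  have h7 := hLY (n * (N - q))
  have h8 := hLY (r * N)
  linear_combination (b * Y ^ (n * q) * M.L ^ r * Y ^ (N - q) * Y) * h7 +
    (b * Y ^ (n * q) * M.L ^ r * Y ^ (N - q) * Y * (M.L ^ (n * (N - q)) * Y ^ (n * (N - q)))) * h8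

end Pool.Agent.TH216.ID
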