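import Pool.Agent.TH216.ID.Gn1
import Pool.Agent.TH216.ID.Id2

set_option autoImplicit false

/-! Generic coefficients: the motivic zeta functions for the origins in a coordinate subspace. -/

namespace Pool.Agent.TH216.ID

open MvPolynomial Pool.Agent.H628R4.TP Pool.Agent.W425.MM Pool.Agent.W425.GN
open Pool.Agent.W425.ND (spa)
open Pool.Agent.W426.SM (gord IsRay face)
open Pool.Agent.W803.SM (gord_le exists_gord)
open Pool.Agent.W425.BF (B1 BD shf shf_eval shf_ne hz hz_support hz_eq cof spa_add)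
open Pool.Agent.W425.SV (NP RelV Kil1)
open Pool.Agent.TH216.MF
open Pool.Agent.TH216.MC (pos_of_ray)
open Pool.Agent.W428.MOT (Pt Constr ratRing sp Lu MK)
open Pool.Agent.W375.MG (zetaG Good)

variable {r N : ℕ}

/-- the recurrences at the bad levels -/
theorem hb_genY (hr : 0 < r) {F : Type} [Field F] (v : Fin r → Fin N → ℕ) (Y : Finset (Fin N))
    (hv : Function.Injective v) (h : MvPolynomial (Fin N) F) (hh : ∀ w ∈ h.support, NP v w)
    (hY : YOK (Fin.append v (ke v h)) Y)
    (hvh : ∀ w ∈ h.support, ∀ j, ¬ ∀ x, w x = v j x) (P : ℚ → Prop)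
    (hP : ∀ α, ¬ P α → ∃ (θ : Fin (r + (kept v h).card) → ℤ) (p : Polynomial ℂ),
      RelG (Fin.append v (ke v h)) (Kil1 (Fin.append v (ke v h)))
        (KilU (Fin.append v (ke v h)) θ) p ∧ p.eval (α : ℂ) ≠ 0)
    (J : Finset (Fin N)) (q : ℕ) (hq : 2 ≤ q)
    (e : Finset (Fin (r + h.support.card)) → ℂ)
    (he : KRelJ q (Fin.append v (we h)) J e) (T0 : ℂ) (hT0 : T0 ≠ 0) (σ : ℚ)
    (hσ : LocY v Y h σ ∧ ¬ P (-σ)) (hlog : Real.log ‖T0‖ / Real.log q = (σ : ℝ)) :
    RecJ q (Fin.append v (we h)) e J T0 := by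
  classical
  have hminj : Function.Injective (Fin.append v (we h)) := by
    intro j j'
    refine Fin.addCases (fun j => ?_) (fun l => ?_) j <;>
      refine Fin.addCases (fun j' => ?_) (fun l' => ?_) j'
    · rw [Fin.append_left, Fin.append_left]
      intro h3
      rw [hv h3]
    · rw [Fin.append_left, Fin.append_right]
      intro h3
      exact absurd (fun x => (congrFun h3 x).symm)
        (hvh _ (h.support.equivFin.symm l').2 j)
    · rw [Fin.append_left, Fin.append_right]
      intro h3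
      exact absurd (fun x => congrFun h3 x) (hvh _ (h.support.equivFin.symm l).2 j')
    · rw [Fin.append_right, Fin.append_right]
      intro h3
      have h4 : (h.support.equivFin.symm l) = (h.support.equivFin.symm l') :=
        Subtype.ext (Finsupp.ext fun x => congrFun h3 x)
      rw [h.support.equivFin.symm.injective h4]
  have hma : ∀ j', ∃ j, Fin.append v (we h) j = Fin.append v (ke v h) j' := by
    intro j'
    refine Fin.addCases (fun j => ?_) (fun l => ?_) j'
    · exact ⟨Fin.castAdd _ j, by rw [Fin.append_left, Fin.append_left]⟩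
    · obtain ⟨w, hw, hwe, -⟩ := ke_mem v h l
      refine ⟨Fin.natAdd r (h.support.equivFin ⟨w, hw⟩), ?_⟩
      rw [Fin.append_right, Fin.append_right]
      funext i
      rw [hwe]
      unfold we
      rw [Equiv.symm_apply_apply]
  have hmb : ∀ j, InC (Fin.append v (ke v h)) Finset.univ (Fin.append v (we h) j) := by
    intro j
    refine Fin.addCases (fun j => ?_) (fun l => ?_) j
    · rw [Fin.append_left]
      exact inC_append v _ _ (inC_self v _ j (Finset.mem_univ _))
    · rw [Fin.append_right]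
      by_cases hC : InC v Finset.univ (we h l)
      · exact inC_append v _ _ hC
      · have hmem : (h.support.equivFin.symm l).1 ∈ kept v h :=
          (mem_kept v h _).2 ⟨(h.support.equivFin.symm l).2, hC⟩
        have h3 : Fin.append v (ke v h) (Fin.natAdd r ((kept v h).equivFin ⟨_, hmem⟩)) =
            we h l := by
          rw [Fin.append_right]
          funext i
          unfold ke
          rw [Equiv.symm_apply_apply]
          rfl
        rw [← h3]
        exact inC_self _ _ _ (Finset.mem_univ _)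
  obtain ⟨hL, hPσ⟩ := hσ
  obtain ⟨θ, p, hrel, hp⟩ := hP _ hPσ
  have he' := krelJ_phi (Fin.append v (we h)) (Fin.append v (ke v h)) hminj hma q J e he
  have h1 : ((-Real.log ‖T0‖ / Real.log q : ℝ) : ℂ) = ((-σ : ℚ) : ℂ) := by
    rw [neg_div, hlog]
    push_cast
    rfl
  obtain ⟨Q, hQ, hrec⟩ := recJ_genY q hq (Fin.append v (ke v h)) Y hY p θ hrel J _ he' T0 hT0
    (by rw [h1]; exact hp) (by rw [hlog]; exact hypSY_of_locY v h hr Y hh σ hL)
  refine ⟨Q, hQ, ?_⟩
  filter_upwards [hrec] with t ht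
  rw [← ht]
  refine Finset.sum_congr rfl fun m _ => ?_
  rw [aJ_phi (Fin.append v (we h)) (Fin.append v (ke v h)) (by omega) (by omega) hma hmb]

/-- the hypothesis on the rays -/
def HypY {R : Type} [CommRing R] (v : Fin r → Fin N → ℕ) (Y : Finset (Fin N))
    (h : MvPolynomial (Fin N) R) : Prop :=
  ∀ a : Fin N → ℕ, IsRay v a → 0 < gord v a → (∀ i ∈ Y, ¬ BD v h i a) →
    (∃ a' : Fin N → ℕ, 0 < gord v a' ∧ NonB v True a' ∧
      ((∑ i, a i : ℕ) : ℚ) / gord v a = ((∑ i, a' i : ℕ) : ℚ) / gord v a') ∨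
    LocY v Y h (((∑ i, a i : ℕ) : ℚ) / gord v a)

/-- all the rays -/
lemma HypY.all {R : Type} [CommRing R] {v : Fin r → Fin N → ℕ} {Y : Finset (Fin N)}
    {h : MvPolynomial (Fin N) R} (hL : HypY v Y h) (a : Fin N → ℕ) (_ha : IsRay v a)
    (_hg : 0 < gord v a) :
    (∃ a' : Fin N → ℕ, 0 < gord v a' ∧ NonB v True a' ∧
      ((∑ i, a i : ℕ) : ℚ) / gord v a = ((∑ i, a' i : ℕ) : ℚ) / gord v a') ∨
    LocY v Y h (((∑ i, a i : ℕ) : ℚ) / gord v a) := by
  by_cases hex : ∃ a' : Fin N → ℕ, IsRay v a' ∧ 0 < gord v a' ∧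
      ((∑ i, a' i : ℕ) : ℚ) / gord v a' = ((∑ i, a i : ℕ) : ℚ) / gord v a ∧
      ∀ i ∈ Y, ¬ BD v h i a'
  · obtain ⟨a', h1, h2, h3, h4⟩ := hex
    have h5 := hL a' h1 h2 h4
    rw [h3] at h5
    exact h5
  · push Not at hex
    refine Or.inr fun j1 => Or.inr fun a' h1 h2 _ h4 => Or.inr ?_
    exact hex a' h1 h2 h4

lemma locY_hz {F : Type} [Field F] (v : Fin r → Fin N → ℕ) (hv : Function.Injective v)
    (Y : Finset (Fin N)) (h : MvPolynomial (Fin N) F) (σ : ℚ) (hB : LocY v Y h σ) :
    LocY v Y (hz v h) σ := by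
  have hb : ∀ i a, BD v h i a → BD v (hz v h) i a := by
    rintro i a ⟨hai, j0, hf0, hv1, hu, hw⟩
    exact ⟨hai, j0, hf0, hv1, hu, fun w hw' => hw w ((hz_support v hv h).1 w hw')⟩
  have hs : ∀ a, SimH v h a → SimH v (hz v h) a := by
    rintro a ⟨h1, h2⟩
    exact ⟨h1, fun w hw => h2 w ((hz_support v hv h).1 w hw)⟩
  intro j1
  rcases hB j1 with ⟨i, hi⟩ | hi
  · exact Or.inl ⟨i, fun a ha hg hf hσ => (hi a ha hg hf hσ).imp (hs a) (hb i a)⟩
  · refine Or.inr fun a ha hg hf hσ => (hi a ha hg hf hσ).imp (hs a) ?_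
    rintro ⟨i, hiY, h1⟩
    exact ⟨i, hiY, hb i a h1⟩

/-- the conclusion for all the coefficients `c` with `g(c) ≠ 0` -/
def ConY {F : Type} [Field F] [Algebra F ℂ] (D : Finset (Fin N))
    (v : Fin r → Fin N → ℕ) (h : MvPolynomial (Fin N) F) (g : MvPolynomial (Fin r) F) : Prop :=
  ∀ (k : Type) [Field k] [Algebra F k] [Algebra k ℂ]
      [IsScalarTower F k ℂ] (c : Fin r → k), aeval (fun j => algebraMap k ℂ (c j)) g ≠ 0 →
      ∃ S : Finset (ℤ × ℤ),
        (∀ p ∈ S, p.1 < 0 ∧ 0 < p.2 ∧ ∀ b : Polynomial ℂ, FEqL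
          (spa v (fun j => algebraMap k ℂ (c j)) + MvPolynomial.map (algebraMap F ℂ) h)
            ((Polynomial.X + 1) * b) → b.eval ((p.1 : ℂ) / p.2) = 0) ∧
        (∀ (K : Type) [Field K] [Algebra k K] (W : Set (Pt K (Fin N)))
          (E : Set (AlgebraicClosure K)), Constr W → Good E →
          (∀ z ∈ W, ∀ i ∈ D, z i = 0) →
          zetaG (spa v (fun j => algebraMap k K (c j)) +
            MvPolynomial.map ((algebraMap k K).comp (algebraMap F k)) h) W E *
            (1 - PowerSeries.C (((Lu K)⁻¹ : (MK K)ˣ) : MK K) * PowerSeries.X) ∈ ratRing K S)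

theorem genY0 {F : Type} [Field F] [Algebra F ℂ] (hr : 0 < r) (D : Finset (Fin N))
    (v : Fin r → Fin N → ℕ) (Y : Finset (Fin N)) (hv : Function.Injective v)
    (hv0 : ∀ j, v j ≠ 0)
    (h : MvPolynomial (Fin N) F) (hh : ∀ w ∈ h.support, NP v w)
    (hY : YOK (Fin.append v (ke v h)) Y)
    (hvh : ∀ w ∈ h.support, ∀ j, ¬ ∀ x, w x = v j x)
    (hL : ∀ a : Fin N → ℕ, IsRay v a → 0 < gord v a →
      (∃ a' : Fin N → ℕ, 0 < gord v a' ∧ NonB v True a' ∧
        ((∑ i, a i : ℕ) : ℚ) / gord v a = ((∑ i, a' i : ℕ) : ℚ) / gord v a') ∨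
      LocY v Y h (((∑ i, a i : ℕ) : ℚ) / gord v a)) :
    ∃ g : MvPolynomial (Fin r) F, g ≠ 0 ∧ ConY D v h g := by
  classical
  have hne : NeZero r := ⟨by omega⟩
  obtain ⟨g1, hg1, h1⟩ := rootsI (F := F) hr v hv h
  obtain ⟨g2, hg2, h2⟩ := gen_nonDF pF4 hr v (we h) (we_np v h hh) (wc h)
  have hg3 : (∏ j : Fin r, (X j : MvPolynomial (Fin r) F)) ≠ 0 :=
    Finset.prod_ne_zero_iff.2 fun j _ => X_ne_zero j
  have hray := pRAY v (we h) hr (we_np v h hh)
  obtain ⟨S, hS, hz1⟩ := fin_W (Fin.append v (we h)) (by omega)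
    (fun σ => LocY v Y h σ ∧ ¬ PI v h (-σ)) D
    (fun J _ q hq e he T0 hT0 σ hσ hlog => hb_genY hr v Y hv h hh hY hvh (PI v h)
      (fun α hα => relI v hv hv0 h hh α hα) J q hq e he T0 hT0 σ hσ hlog)
  refine ⟨g1 * g2 * ∏ j : Fin r, (X j : MvPolynomial (Fin r) F),
    mul_ne_zero (mul_ne_zero hg1 hg2) hg3, fun k _ _ _ _ c hc => ?_⟩
  rw [map_mul, map_mul, map_prod] at hc
  have hcne : ∀ j, c j ≠ 0 := by
    intro j hj
    have h5 := Finset.prod_ne_zero_iff.1 (right_ne_zero_of_mul hc) j (Finset.mem_univ j)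
    rw [aeval_X, hj, map_zero] at h5
    exact h5 rfl
  have hb := h1 _ (left_ne_zero_of_mul (left_ne_zero_of_mul hc))
  have hnd := h2 _ (right_ne_zero_of_mul (left_ne_zero_of_mul hc))
  have hnk : NonD (Fin.append v (we h)) (fun j => algebraMap k ℂ
      (Fin.append c (fun l => algebraMap F k (wc h l)) j)) := by
    rw [append_map]
    simp only [← IsScalarTower.algebraMap_apply F k ℂ]
    exact hnd
  refine ⟨S, fun p hp => ?_, fun K _ _ W E hW hE hWD => ?_⟩
  · obtain ⟨a, ha, hg, hn, rfl⟩ := hS p hp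
    obtain ⟨hga, hra⟩ := hray a
    rw [hga] at hg hn ⊢
    refine ⟨pos_of_ray (hra ha), Int.natCast_pos.2 hg, fun b hb' => ?_⟩
    have hkey : ∀ α : ℚ, PI v h α → α = -(((∑ i, a i : ℕ) : ℚ) / gord v a) →
        b.eval (((-((∑ i, a i : ℕ) : ℤ) : ℤ) : ℂ) / ((gord v a : ℤ) : ℂ)) = 0 := by
      intro α hα hα'
      have h3 := hb b hb' α hα
      rw [← h3, hα']
      congr 1
      push_cast
      ring
    rcases hL a (hra ha) hg with ⟨a', hg', hn', he⟩ | h6
    · exact hkey _ (pi_nonB v hv hv0 h hh a' hg' hn') (by rw [he])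
    · by_cases hP : PI v h (-(((∑ i, a i : ℕ) : ℚ) / gord v a))
      · exact hkey _ hP rfl
      · exact absurd ⟨h6, hP⟩ hn
  · have hK : CharZero K := by
      have hkc : CharZero k := RingHom.charZero (algebraMap k ℂ)
      exact charZero_of_injective_algebraMap (algebraMap k K).injective
    rw [sp_eq]
    refine hz1 K _ (nonG_of_nonD _ _ ?_) (fun j => ?_) W E hW hE hWD
    · have h4 := nonD_ext (k := k) (L := AlgebraicClosure K) _ _ hnk
      have h5 : (fun j => algebraMap K (AlgebraicClosure K)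
          (Fin.append (fun j => algebraMap k K (c j))
            (fun l => (algebraMap k K).comp (algebraMap F k) (wc h l)) j)) =
          fun j => algebraMap k (AlgebraicClosure K)
            (Fin.append c (fun l => algebraMap F k (wc h l)) j) := by
        rw [append_map, append_map]
        congr 1
      rw [h5]
      exact h4
    · refine Fin.addCases (fun j => ?_) (fun l => ?_) j
      · rw [Fin.append_left]
        exact (map_ne_zero _).2 (hcne j)
      · rw [Fin.append_right]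
        exact (map_ne_zero _).2 (mem_support_iff.1 (h.support.equivFin.symm l).2)

/-- the shift of the coefficients -/
theorem conY_shift {F : Type} [Field F] [Algebra F ℂ] (D : Finset (Fin N))
    (v : Fin r → Fin N → ℕ)
    (h : MvPolynomial (Fin N) F) (g : MvPolynomial (Fin r) F) (hC : ConY D v (hz v h) g) :
    ConY D v h (shf (cof v h) g) := by
  intro k _ _ _ _ c hc
  have hmap : ∀ {K : Type} [Field K] (φ : F →+* K) (c' : Fin r → K),
      spa v c' + MvPolynomial.map φ h =
        spa v (fun j => c' j + φ (cof v h j)) + MvPolynomial.map φ (hz v h) := by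
    intro K _ φ c'
    rw [spa_add]
    unfold hz
    rw [map_sub, map_spa]
    ring
  rw [shf_eval] at hc
  have hc' : aeval (fun j => algebraMap k ℂ (c j + algebraMap F k (cof v h j))) g ≠ 0 := by
    have e : (fun j => algebraMap k ℂ (c j + algebraMap F k (cof v h j))) =
        fun j => algebraMap k ℂ (c j) + algebraMap F ℂ (cof v h j) := by
      funext j
      rw [map_add, ← IsScalarTower.algebraMap_apply]
    rw [e]
    exact hc
  obtain ⟨S, hS, hz1⟩ := hC k (fun j => c j + algebraMap F k (cof v h j)) hc'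
  refine ⟨S, fun p hp => ?_, fun K _ _ W E hW hE hWD => ?_⟩
  · obtain ⟨h1, h2, h3⟩ := hS p hp
    refine ⟨h1, h2, fun b hb => h3 b ?_⟩
    rw [hmap] at hb
    have e : (fun j => algebraMap k ℂ (c j + algebraMap F k (cof v h j))) =
        fun j => algebraMap k ℂ (c j) + algebraMap F ℂ (cof v h j) := by
      funext j
      rw [map_add, ← IsScalarTower.algebraMap_apply]
    rw [e]
    exact hb
  · rw [hmap]
    have h3 := hz1 K W E hW hE hWD
    have e : (fun j => algebraMap k K (c j + algebraMap F k (cof v h j))) =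
        fun j => algebraMap k K (c j) + ((algebraMap k K).comp (algebraMap F k)) (cof v h j) := by
      funext j
      rw [map_add]
      rfl
    rw [e] at h3
    exact h3

/-- **Generic coefficients.** -/
theorem genY {F : Type} [Field F] [Algebra F ℂ] (hr : 0 < r) (D : Finset (Fin N))
    (v : Fin r → Fin N → ℕ) (Y : Finset (Fin N)) (hv : Function.Injective v)
    (hv0 : ∀ j, v j ≠ 0)
    (h : MvPolynomial (Fin N) F) (hh : ∀ w ∈ h.support, NP v w)
    (hY : YOK v Y) (hYh : ∀ w ∈ h.support, (∀ i ∈ Y, w i ≤ 1) ∧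
      ∀ i ∈ Y, ∀ i' ∈ Y, w i ≠ 0 → w i' ≠ 0 → i = i')
    (hL : HypY v Y h) :
    ∃ g : MvPolynomial (Fin r) F, g ≠ 0 ∧ ConY D v h g := by
  have hh' : ∀ w ∈ (hz v h).support, NP v w := fun w hw => hh w ((hz_support v hv h).1 w hw)
  have hY' : YOK (Fin.append v (ke v (hz v h))) Y := by
    constructor
    · intro i hi j
      refine Fin.addCases (fun j => ?_) (fun l => ?_) j
      · rw [Fin.append_left]
        exact hY.1 i hi j
      · rw [Fin.append_right]
        obtain ⟨w, hw, hwe, -⟩ := ke_mem v (hz v h) l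
        rw [hwe]
        exact (hYh w ((hz_support v hv h).1 w hw)).1 i hi
    · intro i hi i' hi' j
      refine Fin.addCases (fun j => ?_) (fun l => ?_) j
      · rw [Fin.append_left]
        exact hY.2 i hi i' hi' j
      · rw [Fin.append_right]
        obtain ⟨w, hw, hwe, -⟩ := ke_mem v (hz v h) l
        rw [hwe, hwe]
        exact (hYh w ((hz_support v hv h).1 w hw)).2 i hi i' hi'
  obtain ⟨g, hg, hC⟩ := genY0 hr D v Y hv hv0 (hz v h) hh' hY' (hz_support v hv h).2
    (fun a ha hga => (hL.all a ha hga).imp id (locY_hz v hv Y h _))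
  exact ⟨shf (cof v h) g, shf_ne _ _ hg, conY_shift D v h g hC⟩

end Pool.Agent.TH216.ID
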